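import Mathlib

set_option autoImplicit false

open Real Filter Asymptotics Topology

namespace Pool.Agent.Lib.AB65

noncomputable def T : ℝ := tanh 2 / 8

noncomputable def V (t x y : ℝ) : ℝ :=
  1 - t ^ 5 * x ^ 2 - (1 - t ^ 5) * y ^ 2 + t ^ 2 * (cos x * sinh y) -
    T * t ^ 4 * (cos (2 * x) * cosh (2 * y))

noncomputable def A (t x y : ℝ) : ℝ :=
  -2 * t ^ 5 * x - t ^ 2 * (sin x * sinh y) + 2 * T * t ^ 4 * (sin (2 * x) * cosh (2 * y))

noncomputable def B (t x y : ℝ) : ℝ :=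
  -2 * (1 - t ^ 5) * y + t ^ 2 * (cos x * cosh y) - 2 * T * t ^ 4 * (cos (2 * x) * sinh (2 * y))

theorem T_pos : 0 < T := by
  have h : 0 < sinh 2 := sinh_pos_iff.2 (by norm_num)
  rw [T, tanh_eq_sinh_div_cosh]
  positivity

theorem T_lt : T < 1 / 8 := by
  have := tanh_lt_one 2
  rw [T]; linarith

theorem T_mul : T * cosh 2 = sinh 1 * cosh 1 / 4 := by
  have h := sinh_two_mul 1
  rw [mul_one] at h
  rw [T, tanh_eq_sinh_div_cosh, h]
  field_simp
  norm_num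

theorem V_neg (t x y : ℝ) : V t (-x) y = V t x y := by simp [V]

theorem A_neg (t x y : ℝ) : A t (-x) y = -A t x y := by simp [A]; ring

theorem B_neg (t x y : ℝ) : B t (-x) y = B t x y := by simp [B]

/-- mean value bound on an interval -/
theorem lip {g g' : ℝ → ℝ} (h : ∀ x, HasDerivAt g (g' x) x) {K u w : ℝ}
    (hK : ∀ z ∈ Set.uIcc w u, |g' z| ≤ K) : |g u - g w| ≤ K * |u - w| :=
  (convex_uIcc w u).norm_image_sub_le_of_norm_hasDerivWithin_le
    (fun z _ => (h z).hasDerivWithinAt) hK Set.left_mem_uIcc Set.right_mem_uIcc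

theorem abs_le_of_uIcc {R u w z : ℝ} (hu : |u| ≤ R) (hw : |w| ≤ R) (hz : z ∈ Set.uIcc w u) :
    |z| ≤ R := by
  rw [abs_le] at *
  rcases Set.mem_uIcc.1 hz with h | h <;> constructor <;> linarith [h.1, h.2, hu.1, hu.2]

theorem cosh_le {R y : ℝ} (h : |y| ≤ R) : cosh y ≤ cosh R :=
  cosh_le_cosh.2 (h.trans (le_abs_self R))

theorem sinh_le {R y : ℝ} (h : |y| ≤ R) : |sinh y| ≤ cosh R := by
  rw [abs_sinh]
  exact (sinh_lt_cosh _).le.trans (cosh_le (by rwa [abs_abs]))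

theorem lip_sinh {R u w : ℝ} (hu : |u| ≤ R) (hw : |w| ≤ R) :
    |sinh u - sinh w| ≤ cosh R * |u - w| :=
  lip hasDerivAt_sinh fun z hz => by
    rw [abs_of_pos (cosh_pos z)]; exact cosh_le (abs_le_of_uIcc hu hw hz)

theorem lip_cosh {R u w : ℝ} (hu : |u| ≤ R) (hw : |w| ≤ R) :
    |cosh u - cosh w| ≤ cosh R * |u - w| :=
  lip hasDerivAt_cosh fun _ hz => sinh_le (abs_le_of_uIcc hu hw hz)

theorem tay {g g' : ℝ → ℝ} (h : ∀ x, HasDerivAt g (g' x) x) {K u w : ℝ} (h0 : 0 ≤ K)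
    (hK : ∀ z ∈ Set.uIcc w u, |g' z - g' w| ≤ K * |z - w|) :
    |g u - g w - g' w * (u - w)| ≤ K * |(u - w) * (u - w)| := by
  have h1 := lip (g := fun z => g z - g' w * z) (g' := fun z => g' z - g' w * 1)
    (fun z => (h z).sub ((hasDerivAt_id z).const_mul _)) (K := K * |u - w|) (u := u) (w := w)
    fun z hz => by
      rw [mul_one]
      exact (hK z hz).trans (mul_le_mul_of_nonneg_left (Set.abs_sub_left_of_mem_uIcc hz) h0)
  rw [abs_mul, ← mul_assoc]
  refine le_of_eq_of_le ?_ h1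
  congr 1
  ring

theorem tay_sin (u w : ℝ) : |sin u - sin w - cos w * (u - w)| ≤ 1 * |(u - w) * (u - w)| :=
  tay hasDerivAt_sin zero_le_one fun z _ => by rw [one_mul]; exact abs_cos_sub_cos_le z w

theorem tay_sinh {R u w : ℝ} (hu : |u| ≤ R) (hw : |w| ≤ R) :
    |sinh u - sinh w - cosh w * (u - w)| ≤ cosh R * |(u - w) * (u - w)| :=
  tay hasDerivAt_sinh (cosh_pos R).le fun _ hz => lip_cosh (abs_le_of_uIcc hu hw hz) hw

/-- two boundary points whose inner normals meet at equal distance -/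
structure Cf where
  t : ℝ
  x : ℝ
  x1 : ℝ
  y1 : ℝ
  x2 : ℝ
  y2 : ℝ
  l1 : ℝ
  l2 : ℝ
  t0 : 0 < t
  t1 : t ≤ 1
  hy1 : |y1| ≤ 2
  hy2 : |y2| ≤ 2
  v1 : V t x1 y1 = 0
  v2 : V t x2 y2 = 0
  b1 : B t x1 y1 ≤ 0
  b2 : 0 ≤ B t x2 y2
  p1 : 0 < l1
  p2 : 0 < l2
  e1 : x - x1 = l1 * A t x1 y1
  e2 : x - x2 = l2 * A t x2 y2
  e3 : y1 + l1 * B t x1 y1 = y2 + l2 * B t x2 y2
  e4 : l1 ^ 2 * (A t x1 y1 ^ 2 + B t x1 y1 ^ 2) = l2 ^ 2 * (A t x2 y2 ^ 2 + B t x2 y2 ^ 2)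
  d1 : |x - x1| ≤ 4
  d2 : |x - x2| ≤ 4

/-- order `t ^ n * w` -/
def O (l : Filter Cf) (w : Cf → ℝ) (n : ℕ) (f : Cf → ℝ) : Prop :=
  f =O[l] fun c => c.t ^ n * w c

abbrev one : Cf → ℝ := fun _ => 1

namespace O

variable {l : Filter Cf} {w f g : Cf → ℝ} {n m k : ℕ}

theorem of_le (C : ℝ) (h : ∀ᶠ c in l, |f c| ≤ C * |w c|) : O l w 0 f :=
  IsBigO.of_bound C (by simpa using h)

theorem bdd (C : ℝ) (h : ∀ c, |f c| ≤ C) : O l one 0 f :=
  of_le C (Eventually.of_forall fun c => by simpa using h c)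

theorem const (a : ℝ) : O l one 0 fun _ => a := bdd |a| fun _ => le_rfl

theorem refl : O l w 0 w := of_le 1 (by simp)

theorem pow (n : ℕ) : O l one n fun c => c.t ^ n := IsBigO.of_bound 1 (by simp)

theorem add (hf : O l w n f) (hg : O l w n g) : O l w n fun c => f c + g c := IsBigO.add hf hg

theorem sub (hf : O l w n f) (hg : O l w n g) : O l w n fun c => f c - g c := IsBigO.sub hf hg

theorem cm (a : ℝ) (hf : O l w n f) : O l w n fun c => a * f c := IsBigO.const_mul_left hf a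

theorem congr (hf : O l w n f) (h : ∀ c, f c = g c) : O l w n g := IsBigO.congr_left hf h

theorem mono (hf : O l w n f) (h : k ≤ n) : O l w k f := by
  refine IsBigO.trans hf (IsBigO.of_bound 1 (Eventually.of_forall fun c => ?_))
  rw [one_mul, norm_mul, norm_mul, Real.norm_of_nonneg (pow_nonneg c.t0.le _),
    Real.norm_of_nonneg (pow_nonneg c.t0.le _)]
  exact mul_le_mul_of_nonneg_right (pow_le_pow_of_le_one c.t0.le c.t1 h) (norm_nonneg _)

theorem mul (hf : O l one n f) (hg : O l w m g) (h : k ≤ n + m) :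
    O l w k fun c => f c * g c :=
  mono (n := n + m) ((IsBigO.mul hf hg).congr_right fun c => by simp [pow_add]; ring) h

theorem trans {w' : Cf → ℝ} (hf : O l w n f) (hw : O l w' 0 w) : O l w' n f :=
  IsBigO.trans hf (mul (pow n) hw le_rfl)

theorem le (hf : O l w n f) (C : ℝ) (h : ∀ᶠ c in l, |g c| ≤ C * |f c|) : O l w n g :=
  IsBigO.trans (IsBigO.of_bound C h) hf

theorem bound (hf : O l w n f) : ∃ C, 0 < C ∧ ∀ᶠ c in l, |f c| ≤ C * (c.t ^ n * |w c|) := by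
  obtain ⟨C, hC, h⟩ := IsBigO.exists_pos hf
  refine ⟨C, hC, h.bound.mono fun c hc => ?_⟩
  rwa [norm_mul, Real.norm_of_nonneg (pow_nonneg c.t0.le _)] at hc

theorem small (hl : Tendsto Cf.t l (𝓝 0)) (hf : O l w (n + 1) f) {η : ℝ} (hη : 0 < η) :
    ∀ᶠ c in l, |f c| ≤ η * (c.t ^ n * |w c|) := by
  obtain ⟨C, hC, h⟩ := hf.bound
  filter_upwards [h, hl.eventually (gt_mem_nhds (div_pos hη hC))] with c h1 h2
  rw [lt_div_iff₀ hC] at h2
  have h3 : 0 ≤ c.t ^ n * |w c| := mul_nonneg (pow_nonneg c.t0.le _) (abs_nonneg _)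
  calc |f c| ≤ (c.t * C) * (c.t ^ n * |w c|) := h1.trans_eq (by ring)
    _ ≤ _ := mul_le_mul_of_nonneg_right h2.le h3

theorem pair (hf : O l one 0 f) (hg : O l one 0 g) : ∃ R, ∀ᶠ c in l, |f c| ≤ R ∧ |g c| ≤ R := by
  obtain ⟨C, hC, h⟩ := hf.bound
  obtain ⟨D, hD, h'⟩ := hg.bound
  refine ⟨C + D, ?_⟩
  filter_upwards [h, h'] with c h1 h2
  simp only [pow_zero, abs_one, mul_one] at h1 h2
  constructor <;> linarith

theorem sin0 (f : Cf → ℝ) : O l one 0 fun c => sin (f c) := bdd 1 fun _ => abs_sin_le_one _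

theorem cos0 (f : Cf → ℝ) : O l one 0 fun c => cos (f c) := bdd 1 fun _ => abs_cos_le_one _

theorem sin1 (hf : O l w n f) : O l w n fun c => sin (f c) :=
  hf.le 1 (Eventually.of_forall fun c => by rw [one_mul]; exact abs_sin_le_abs)

theorem sinD (h : O l w n fun c => f c - g c) : O l w n fun c => sin (f c) - sin (g c) :=
  h.le 1 (Eventually.of_forall fun c => by rw [one_mul]; exact abs_sin_sub_sin_le _ _)

theorem cosD (h : O l w n fun c => f c - g c) : O l w n fun c => cos (f c) - cos (g c) :=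
  h.le 1 (Eventually.of_forall fun c => by rw [one_mul]; exact abs_cos_sub_cos_le _ _)

theorem sinhD (hf : O l one 0 f) (hg : O l one 0 g) (h : O l w n fun c => f c - g c) :
    O l w n fun c => sinh (f c) - sinh (g c) := by
  obtain ⟨R, hR⟩ := hf.pair hg
  exact h.le (cosh R) (hR.mono fun c hc => lip_sinh hc.1 hc.2)

theorem coshD (hf : O l one 0 f) (hg : O l one 0 g) (h : O l w n fun c => f c - g c) :
    O l w n fun c => cosh (f c) - cosh (g c) := by
  obtain ⟨R, hR⟩ := hf.pair hg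
  exact h.le (cosh R) (hR.mono fun c hc => lip_cosh hc.1 hc.2)

theorem sinh0 (hf : O l one 0 f) : O l one 0 fun c => sinh (f c) := by
  obtain ⟨R, hR⟩ := hf.pair hf
  exact of_le (cosh R) (hR.mono fun c hc => by simpa using sinh_le hc.1)

theorem cosh0 (hf : O l one 0 f) : O l one 0 fun c => cosh (f c) := by
  obtain ⟨R, hR⟩ := hf.pair hf
  exact of_le (cosh R) (hR.mono fun c hc => by
    rw [abs_of_pos (cosh_pos _)]; simpa using cosh_le hc.1)

end O

end Pool.Agent.Lib.AB65
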