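import Pool.Agent.Lib.AB65.Defs

set_option autoImplicit false

open Real Filter Topology Metric

namespace Pool.Agent.Lib.AB65

structure Sm (t : ℝ) : Prop where
  t0 : 0 < t
  k : cosh 4 ^ 4 * t ≤ 1 / 1000

variable {t : ℝ}

theorem Sm.k1 (h : Sm t) : cosh 4 * t ≤ 1 / 1000 :=
  (mul_le_mul_of_nonneg_right (le_self_pow₀ (one_le_cosh 4) (by norm_num)) h.t0.le).trans h.k

theorem Sm.k2 (h : Sm t) : cosh 4 ^ 2 * t ≤ 1 / 1000 :=
  (mul_le_mul_of_nonneg_right (pow_le_pow_right₀ (one_le_cosh 4) (by norm_num)) h.t0.le).trans h.k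

theorem Sm.t1 (h : Sm t) : t ≤ 1 / 1000 :=
  (le_mul_of_one_le_left h.t0.le (one_le_cosh 4)).trans h.k1

theorem Sm.pw (h : Sm t) {m n : ℕ} (hn : m ≤ n) : t ^ n ≤ t ^ m :=
  pow_le_pow_of_le_one h.t0.le (by linarith [h.t1]) hn

theorem Sm.p5 (h : Sm t) : 0 < t ^ 5 ∧ t ^ 5 ≤ 1 / 1000 :=
  ⟨pow_pos h.t0 5, (h.pw (m := 1) (by norm_num)).trans (by simpa using h.t1)⟩

theorem Sm.e2 (h : Sm t) : 0 < t ^ 2 * cosh 4 ∧ t ^ 2 * cosh 4 ≤ 1 / 1000 := by
  have := h.t0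
  refine ⟨by positivity, ?_⟩
  nlinarith [h.k1, h.t1, mul_pos (cosh_pos 4) this]

theorem two_le {y : ℝ} (hy : |y| ≤ 2) : |2 * y| ≤ 4 := by
  rw [abs_mul, abs_two]; linarith

theorem term {a f g K : ℝ} (ha : 0 ≤ a) (hf : |f| ≤ 1) (hg : |g| ≤ K) : |a * (f * g)| ≤ a * K := by
  rw [abs_mul, abs_mul, abs_of_nonneg ha]
  exact mul_le_mul_of_nonneg_left ((mul_le_of_le_one_left (abs_nonneg _) hf).trans hg) ha

theorem acosh {y : ℝ} (hy : |y| ≤ 4) : |cosh y| ≤ cosh 4 := by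
  rw [abs_of_pos (cosh_pos y)]; exact cosh_le hy

theorem Sm.c4 (h : Sm t) : 0 ≤ T * t ^ 4 ∧ T * t ^ 4 ≤ t ^ 2 / 8 := by
  have := h.t0
  have h1 := T_pos
  refine ⟨by positivity, ?_⟩
  nlinarith [T_lt, h.pw (show 2 ≤ 4 by norm_num), pow_pos this 4]

theorem Sm.V_near (h : Sm t) (x : ℝ) {y : ℝ} (hy : |y| ≤ 2) :
    |V t x y - (1 - t ^ 5 * x ^ 2 - (1 - t ^ 5) * y ^ 2)| ≤ 1 / 500 := by
  have h1 := abs_le.1 (term (sq_nonneg t) (abs_cos_le_one x) (sinh_le (R := 4) (by linarith)))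
  have h2 := abs_le.1 (term h.c4.1 (abs_cos_le_one (2 * x)) (acosh (two_le hy)))
  have h3 := mul_le_mul_of_nonneg_right h.c4.2 (cosh_pos 4).le
  rw [V, abs_le]
  constructor <;> linarith [h.e2.1, h.e2.2, h1.1, h1.2, h2.1, h2.2]

theorem Sm.B_near (h : Sm t) (x : ℝ) {y : ℝ} (hy : |y| ≤ 2) :
    |B t x y + 2 * (1 - t ^ 5) * y| ≤ 2 * (t ^ 2 * cosh 4) := by
  have h1 := abs_le.1 (term (sq_nonneg t) (abs_cos_le_one x) (acosh (y := y) (by linarith)))
  have h2 := abs_le.1 (term h.c4.1 (abs_cos_le_one (2 * x)) (sinh_le (two_le hy)))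
  have h3 := mul_le_mul_of_nonneg_right h.c4.2 (cosh_pos 4).le
  rw [B, abs_le]
  constructor <;> linarith [h.e2.1, h1.1, h1.2, h2.1, h2.2]

theorem Sm.loc (h : Sm t) {x y : ℝ} (hy : |y| ≤ 2) (hv : 0 ≤ V t x y) :
    |y| ≤ 3 / 2 ∧ t ^ 5 * x ^ 2 ≤ 2 := by
  have h1 := (abs_le.1 (h.V_near x hy)).2
  have h2 := mul_nonneg h.p5.1.le (sq_nonneg x)
  have h3 := mul_le_mul_of_nonneg_right h.p5.2 (sq_nonneg y)
  refine ⟨abs_le_of_sq_le_sq (by nlinarith) (by norm_num), by nlinarith⟩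

theorem Sm.B_anti (h : Sm t) (x : ℝ) {y w : ℝ} (hy : |y| ≤ 2) (hw : |w| ≤ 2) (hyw : y ≤ w) :
    B t x w - B t x y ≤ -(w - y) := by
  have a1 := lip_cosh (R := 4) (u := w) (w := y) (by linarith) (by linarith)
  have a2 := lip_sinh (two_le hw) (two_le hy)
  rw [abs_of_nonneg (sub_nonneg.2 hyw)] at a1
  rw [abs_of_nonneg (a := 2 * w - 2 * y) (by linarith)] at a2
  have h1 := abs_le.1 (term (sq_nonneg t) (abs_cos_le_one x) a1)
  have h2 := abs_le.1 (term h.c4.1 (abs_cos_le_one (2 * x)) a2)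
  have h0 := sub_nonneg.2 hyw
  have h3 := mul_le_mul_of_nonneg_right h.c4.2 (mul_nonneg (cosh_pos 4).le h0)
  have h4 := mul_le_mul_of_nonneg_right h.e2.2 h0
  have h5 := mul_le_mul_of_nonneg_right h.p5.2 h0
  simp only [B]
  nlinarith [h1.2, h2.1]

theorem Sm.B_lip (h : Sm t) (x x' : ℝ) {y : ℝ} (hy : |y| ≤ 2) :
    B t x y - B t x' y ≤ |x - x'| := by
  have a1 := abs_cos_sub_cos_le x x'
  have a2 := abs_cos_sub_cos_le (2 * x) (2 * x')
  rw [← mul_sub, abs_mul, abs_two] at a2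
  have b1 : |(cos x - cos x') * cosh y| ≤ |x - x'| * cosh 4 := by
    rw [abs_mul]
    exact mul_le_mul a1 (acosh (by linarith)) (abs_nonneg _) (abs_nonneg _)
  have b2 : |(cos (2 * x) - cos (2 * x')) * sinh (2 * y)| ≤ 2 * |x - x'| * cosh 4 := by
    rw [abs_mul]
    exact mul_le_mul a2 (sinh_le (two_le hy)) (abs_nonneg _) (by positivity)
  have h1 := mul_le_mul_of_nonneg_left (abs_le.1 b1).2 (sq_nonneg t)
  have h2 := mul_le_mul_of_nonneg_left (abs_le.1 b2).1 h.c4.1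
  have h0 := abs_nonneg (x - x')
  have h3 := mul_le_mul_of_nonneg_right h.c4.2 (mul_nonneg (cosh_pos 4).le h0)
  have h4 := mul_le_mul_of_nonneg_right h.e2.2 h0
  simp only [B]
  nlinarith

theorem hasDerivAt_V (t x y : ℝ) : HasDerivAt (V t x) (B t x y) y := by
  have h2 : HasDerivAt (fun y : ℝ => 2 * y) (2 * 1) y := (hasDerivAt_id y).const_mul 2
  have h := (((((hasDerivAt_id y).fun_pow 2).const_mul (1 - t ^ 5)).const_sub
    (1 - t ^ 5 * x ^ 2)).fun_add (((hasDerivAt_sinh y).const_mul (cos x)).const_mul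
    (t ^ 2))).fun_sub ((h2.cosh.const_mul (cos (2 * x))).const_mul (T * t ^ 4))
  refine HasDerivAt.congr_deriv h ?_
  simp only [B, id]
  norm_num
  ring

theorem Sm.exists_c (h : Sm t) : ∃ c : ℝ → ℝ, Continuous c ∧
    ∀ x, |c x| ≤ 2 * (t ^ 2 * cosh 4) ∧ B t x (c x) = 0 := by
  have h1 : ∀ x, ∃ y, |y| ≤ 1 ∧ B t x y = 0 := fun x => by
    have hc : ContinuousOn (B t x) (Set.Icc (-1) 1) := by unfold B; fun_prop
    have a1 := (abs_le.1 (h.B_near x (y := 1) (by norm_num))).2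
    have a2 := (abs_le.1 (h.B_near x (y := -1) (by norm_num))).1
    obtain ⟨y, hy, e⟩ := intermediate_value_Icc' (by norm_num) hc
      (show (0 : ℝ) ∈ Set.Icc (B t x 1) (B t x (-1)) by
        constructor <;> linarith [h.p5.2, h.e2.2])
    exact ⟨y, abs_le.2 hy, e⟩
  choose c hc1 hc2 using h1
  have hc3 : ∀ x, |c x| ≤ 2 := fun x => (hc1 x).trans one_le_two
  have h2 : ∀ x x', c x' - c x ≤ |x' - x| := fun x x' => by
    rcases le_total (c x) (c x') with hl | hl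
    · linarith [h.B_anti x (hc3 x) (hc3 x') hl, h.B_lip x' x (hc3 x'), hc2 x, hc2 x']
    · linarith [abs_nonneg (x' - x)]
  refine ⟨c, (LipschitzWith.of_le_add fun x x' => ?_).continuous, fun x => ⟨?_, hc2 x⟩⟩
  · rw [Real.dist_eq]; linarith [h2 x' x]
  · have h3 := h.B_near x (hc3 x)
    rw [hc2, zero_add, abs_mul, abs_of_nonneg (by linarith [h.p5.2])] at h3
    nlinarith [h.p5.2, abs_nonneg (c x)]

theorem Sm.V_mono (h : Sm t) {x y c w : ℝ} (hy : |y| ≤ 2) (hc : |c| ≤ 2) (h0 : B t x c = 0)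
    (hw : w ∈ Set.uIcc y c) : V t x y ≤ V t x w := by
  have hcont : ∀ s : Set ℝ, ContinuousOn (V t x) s := fun s u _ =>
    (hasDerivAt_V t x u).continuousAt.continuousWithinAt
  rcases lt_trichotomy y w with hl | hl | hl
  · obtain ⟨ξ, hξ, e⟩ := exists_hasDerivAt_eq_slope (V t x) (B t x) hl (hcont _)
      fun u _ => hasDerivAt_V t x u
    have h1 : w ≤ c := by rcases Set.mem_uIcc.1 hw with a | a <;> linarith [a.1, a.2]
    have h2 := h.B_anti x (y := ξ) (abs_le.2 ⟨by linarith [hξ.1, (abs_le.1 hy).1],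
      by linarith [hξ.2, (abs_le.1 hc).2]⟩) hc (by linarith [hξ.2])
    rw [eq_div_iff (sub_pos.2 hl).ne'] at e
    nlinarith [hξ.2]
  · rw [hl]
  · obtain ⟨ξ, hξ, e⟩ := exists_hasDerivAt_eq_slope (V t x) (B t x) hl (hcont _)
      fun u _ => hasDerivAt_V t x u
    have h1 : c ≤ w := by rcases Set.mem_uIcc.1 hw with a | a <;> linarith [a.1, a.2]
    have h2 := h.B_anti x (w := ξ) hc (abs_le.2 ⟨by linarith [hξ.1, (abs_le.1 hc).1],
      by linarith [hξ.2, (abs_le.1 hy).2]⟩) (by linarith [hξ.1])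
    rw [eq_div_iff (sub_pos.2 hl).ne'] at e
    nlinarith [hξ.1]

theorem Sm.zeros (h : Sm t) {x y w : ℝ} (hy : |y| ≤ 2) (hw : |w| ≤ 2) (hl : y < w)
    (e : V t x y = V t x w) : 0 < B t x y ∧ B t x w < 0 := by
  obtain ⟨ξ, hξ, e⟩ := exists_hasDerivAt_eq_zero hl
    (fun u _ => (hasDerivAt_V t x u).continuousAt.continuousWithinAt) e
    fun u _ => hasDerivAt_V t x u
  have h1 : |ξ| ≤ 2 := abs_le.2 ⟨by linarith [hξ.1, (abs_le.1 hy).1],
    by linarith [hξ.2, (abs_le.1 hw).2]⟩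
  constructor <;> linarith [h.B_anti x hy h1 hξ.1.le, h.B_anti x h1 hw hξ.2.le, hξ.1, hξ.2]

theorem Sm.V_far (h : Sm t) {x x' y : ℝ} (h0 : 0 ≤ x') (hx : x' ≤ x) (h1 : 1 / 2 ≤ t ^ 5 * x' ^ 2)
    (hy : |y| ≤ 2 * (t ^ 2 * cosh 4)) : V t x y ≤ V t x' y := by
  have t0 := h.t0
  have k0 := cosh_pos 4
  have hy2 : |y| ≤ 2 := by linarith [h.e2.2]
  have d0 := sub_nonneg.2 hx
  have a1 := abs_cos_sub_cos_le x x'
  have a2 := abs_cos_sub_cos_le (2 * x) (2 * x')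
  rw [abs_of_nonneg d0] at a1
  rw [← mul_sub, abs_mul, abs_two, abs_of_nonneg d0] at a2
  have a3 := lip_sinh (R := 4) (u := y) (w := 0) (by linarith) (by norm_num)
  rw [sinh_zero, sub_zero, sub_zero] at a3
  have b1 : |(cos x - cos x') * sinh y| ≤ (x - x') * (cosh 4 * (2 * (t ^ 2 * cosh 4))) := by
    rw [abs_mul]
    exact mul_le_mul a1 (a3.trans (mul_le_mul_of_nonneg_left hy k0.le)) (abs_nonneg _) d0
  have b2 : |(cos (2 * x) - cos (2 * x')) * cosh (2 * y)| ≤ 2 * (x - x') * cosh 4 := by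
    rw [abs_mul]
    exact mul_le_mul a2 (acosh (two_le hy2)) (abs_nonneg _) (by positivity)
  have c1 := mul_le_mul_of_nonneg_left (abs_le.1 b1).2 (sq_nonneg t)
  have c2 := mul_le_mul_of_nonneg_left (abs_le.1 b2).1 h.c4.1
  have c3 : (2 * cosh 4 ^ 2) ^ 2 ≤ (t * x') ^ 2 := by
    refine le_of_mul_le_mul_left ?_ (pow_pos t0 3)
    have := mul_le_mul_of_nonneg_left (h.pw (show 1 ≤ 3 by norm_num)) (pow_pos k0 4).le
    nlinarith [h.k]
  have c4 : 2 * cosh 4 ^ 2 ≤ t * x' := (sq_le_sq₀ (by positivity) (by positivity)).1 c3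
  have c5 : T * cosh 4 ≤ cosh 4 ^ 2 := by nlinarith [T_lt, one_le_cosh 4]
  have d1 : 0 ≤ t ^ 4 * (x - x') := by positivity
  have c6 := mul_le_mul_of_nonneg_left c4 d1
  have c7 := mul_le_mul_of_nonneg_left c5 d1
  have c8 : 0 ≤ t ^ 5 * ((x - x') * (x - x')) := by positivity
  simp only [V]
  nlinarith

theorem Sm.curve (h : Sm t) {c : ℝ → ℝ} (hc : ∀ x, |c x| ≤ 2 * (t ^ 2 * cosh 4) ∧ B t x (c x) = 0)
    {x θ : ℝ} (h0 : 0 ≤ θ) (h1 : θ ≤ 1) (hv : 0 < V t x (c x)) : 0 < V t (θ * x) (c (θ * x)) := by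
  have h2 : ∀ x, |c x| ≤ 2 := fun x => by linarith [(hc x).1, h.e2.2]
  have h3 : ∀ y, |y| ≤ 2 → V t (θ * x) y ≤ V t (θ * x) (c (θ * x)) := fun y hy =>
    h.V_mono hy (h2 _) (hc _).2 Set.right_mem_uIcc
  rcases le_total (t ^ 5 * (θ * x) ^ 2) (1 / 2) with hl | hl
  · have := (abs_le.1 (h.V_near (θ * x) (y := 0) (by norm_num))).1
    linarith [h3 0 (by norm_num)]
  · refine (hv.trans_le ?_).trans_le (h3 _ (h2 x))
    rcases le_total 0 x with hx | hx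
    · exact h.V_far (mul_nonneg h0 hx) (mul_le_of_le_one_left hx h1) hl (hc x).1
    · rw [← V_neg t x, ← V_neg t (θ * x)]
      exact h.V_far (by nlinarith) (by nlinarith) (by rwa [neg_sq]) (hc x).1

def Om (t : ℝ) : Set ℂ := {z | |z.im| < 2 ∧ 0 < V t z.re z.im}

theorem Sm.contractible (h : Sm t) : ContractibleSpace (Om t) := by
  obtain ⟨c, hcc, hc⟩ := h.exists_c
  have h2 : ∀ x, |c x| < 2 := fun x => by linarith [(hc x).1, h.e2.2]
  have hm : ∀ z ∈ Om t, ∀ s : ℝ, 0 ≤ s → s ≤ 1 →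
      |c (min (2 - 2 * s) 1 * z.re) + max (1 - 2 * s) 0 * (z.im - c z.re)| < 2 ∧
      0 < V t (min (2 - 2 * s) 1 * z.re)
        (c (min (2 - 2 * s) 1 * z.re) + max (1 - 2 * s) 0 * (z.im - c z.re)) := by
    intro z hz s s0 s1
    rcases le_total s (1 / 2) with hs | hs
    · rw [min_eq_right (by linarith), max_eq_left (by linarith), one_mul]
      have h3 : c z.re + (1 - 2 * s) * (z.im - c z.re) ∈ Set.uIcc z.im (c z.re) := by
        rw [Set.mem_uIcc]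
        rcases le_total z.im (c z.re) with a | a
        · left; constructor <;> nlinarith
        · right; constructor <;> nlinarith
      refine ⟨?_, hz.2.trans_le (h.V_mono hz.1.le (h2 _).le (hc _).2 h3)⟩
      exact (abs_le_of_uIcc (le_max_left _ _) (le_max_right _ _) h3).trans_lt (max_lt (h2 _) hz.1)
    · rw [min_eq_left (by linarith), max_eq_right (by linarith), zero_mul, add_zero]
      exact ⟨h2 _, h.curve hc (by linarith) (by linarith)
        (hz.2.trans_le (h.V_mono hz.1.le (h2 _).le (hc _).2 Set.right_mem_uIcc))⟩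
  have h0 : ((c 0 : ℝ) : ℂ) * Complex.I ∈ Om t := by
    have h3 := (abs_le.1 (h.V_near 0 (y := 0) (by norm_num))).1
    have h4 := h.V_mono (x := 0) (y := 0) (by norm_num) (h2 0).le (hc 0).2 Set.right_mem_uIcc
    refine ⟨by simpa using h2 0, ?_⟩
    simp only [Complex.mul_re, Complex.mul_im, Complex.ofReal_re, Complex.ofReal_im, Complex.I_re,
      Complex.I_im, mul_zero, mul_one, sub_zero, add_zero]
    linarith
  refine (contractible_iff_id_nullhomotopic (Om t)).2 ⟨⟨_, h0⟩,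
    ⟨⟨⟨fun p => ⟨((min (2 - 2 * (p.1 : ℝ)) 1 * (p.2 : ℂ).re : ℝ) : ℂ) +
      ((c (min (2 - 2 * (p.1 : ℝ)) 1 * (p.2 : ℂ).re) +
        max (1 - 2 * (p.1 : ℝ)) 0 * ((p.2 : ℂ).im - c (p.2 : ℂ).re) : ℝ) : ℂ) * Complex.I, ?_⟩,
      ?_⟩, ?_, ?_⟩⟩⟩
  · simpa only [Om, Set.mem_ofPred_eq, Complex.add_re, Complex.ofReal_re, Complex.mul_re,
      Complex.I_re, mul_zero, Complex.ofReal_im, Complex.I_im, mul_one, sub_self, add_zero,
      Complex.add_im, Complex.mul_im, zero_add] using hm _ p.2.2 _ p.1.2.1 p.1.2.2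
  · fun_prop
  · intro z
    apply Subtype.ext
    apply Complex.ext <;> simp
  · intro z
    apply Subtype.ext
    apply Complex.ext <;> norm_num

end Pool.Agent.Lib.AB65
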