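import Mathlib

set_option autoImplicit false

open Filter Topology Metric

namespace Pool.Agent.Lib.AB65

theorem dist_sq (z p : ℂ) : dist z p ^ 2 = (z.re - p.re) ^ 2 + (z.im - p.im) ^ 2 := by
  rw [Complex.dist_eq_re_im, Real.sq_sqrt (by positivity)]

/-- a direction in which all nearest points recede -/
theorem not_max {F : Set ℂ} (hF : IsCompact F) (hne : F.Nonempty) {z : ℂ} (a b : ℝ)
    (h : ∀ p ∈ F, dist z p = infDist z F → 0 < a * (z.re - p.re) + b * (z.im - p.im)) :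
    ¬ IsLocalMax (fun w => infDist w F) z := by
  intro hm
  have hK : IsCompact (F ∩ {p | a * (z.re - p.re) + b * (z.im - p.im) ≤ 0}) :=
    hF.inter_right (isClosed_le (by fun_prop) continuous_const)
  have h1 : ∀ᶠ s in 𝓝 (0 : ℝ), ∀ p ∈ F ∩ {p | a * (z.re - p.re) + b * (z.im - p.im) ≤ 0},
      infDist z F ^ 2 < dist z p ^ 2 + 2 * s * (a * (z.re - p.re) + b * (z.im - p.im)) := by
    refine hK.eventually_forall_of_forall_eventually fun p hp => ?_
    refine ContinuousAt.eventually_lt continuousAt_const (by fun_prop) ?_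
    have h2 : infDist z F < dist z p :=
      lt_of_le_of_ne (infDist_le_dist_of_mem hp.1) fun e => absurd (h p hp.1 e.symm) (not_lt.2 hp.2)
    simpa using pow_lt_pow_left₀ h2 infDist_nonneg two_ne_zero
  have hc : Continuous fun s : ℝ => z + (s : ℂ) * (a + b * Complex.I) := by fun_prop
  have h2 : ∀ᶠ s : ℝ in 𝓝 0, infDist (z + (s : ℂ) * (a + b * Complex.I)) F ≤ infDist z F :=
    (hc.tendsto' 0 z (by simp)).eventually hm
  obtain ⟨s, ⟨h3, h4⟩, h5⟩ := (((h1.and h2).filter_mono nhdsWithin_le_nhds).and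
    (self_mem_nhdsWithin (s := Set.Ioi (0 : ℝ)))).exists
  obtain ⟨p, hp, e⟩ := hF.exists_infDist_eq_dist hne (z + (s : ℂ) * (a + b * Complex.I))
  have h6 : infDist z F ^ 2 < dist z p ^ 2 + 2 * s * (a * (z.re - p.re) + b * (z.im - p.im)) := by
    by_cases hq : a * (z.re - p.re) + b * (z.im - p.im) ≤ 0
    · exact h3 p ⟨hp, hq⟩
    · have := pow_le_pow_left₀ infDist_nonneg (infDist_le_dist_of_mem (x := z) hp) 2
      have h7 : (0 : ℝ) < s := h5
      nlinarith [mul_pos h7 (not_le.1 hq)]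
  have h7 := pow_le_pow_left₀ dist_nonneg (e ▸ h4) 2
  rw [dist_sq] at h7
  rw [dist_sq] at h6
  simp only [Complex.add_re, Complex.add_im, Complex.mul_re, Complex.mul_im, Complex.ofReal_re,
    Complex.ofReal_im, Complex.I_re, Complex.I_im] at h7
  nlinarith [sq_nonneg (s * a), sq_nonneg (s * b)]

theorem both {F : Set ℂ} (hF : IsCompact F) (hne : F.Nonempty) {z : ℂ}
    (hm : IsLocalMax (fun w => infDist w F) z) :
    (∃ p ∈ F, dist z p = infDist z F ∧ z.im - p.im ≤ 0) ∧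
      ∃ p ∈ F, dist z p = infDist z F ∧ 0 ≤ z.im - p.im := by
  constructor
  · by_contra hc
    push Not at hc
    exact not_max hF hne 0 1 (fun p hp e => by linarith [hc p hp e]) hm
  · by_contra hc
    push Not at hc
    exact not_max hF hne 0 (-1) (fun p hp e => by linarith [hc p hp e]) hm

theorem det_neg {a b s w : ℝ} (h : a ^ 2 + b ^ 2 = s ^ 2 + w ^ 2) (hb : b ≤ 0) (hw : 0 < w)
    (hs : a < s) : a * w + s * b < 0 := by
  rcases lt_or_ge a 0 with ha | ha
  · rcases le_total 0 s with h0 | h0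
    · nlinarith [mul_pos (neg_pos.2 ha) hw, mul_nonneg h0 (neg_nonneg.2 hb)]
    · have h1 : -b ≤ w := (sq_le_sq₀ (by linarith) hw.le).1 (by nlinarith)
      nlinarith [mul_pos (sub_pos.2 hs) hw, mul_nonneg (neg_nonneg.2 h0) (sub_nonneg.2 h1)]
  · have h1 : w ≤ -b := (sq_le_sq₀ hw.le (by linarith)).1 (by nlinarith)
    nlinarith [mul_pos (sub_pos.2 hs) (hw.trans_le h1), mul_nonneg ha (sub_nonneg.2 h1)]

theorem not_max_of_pairs {F : Set ℂ} (hF : IsCompact F) (hne : F.Nonempty) {z : ℂ} {σ : ℝ}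
    (hσ : σ ^ 2 = 1)
    (h : ∀ p ∈ F, ∀ q ∈ F, dist z p = infDist z F → dist z q = infDist z F → z.im - p.im ≤ 0 →
      0 ≤ z.im - q.im → σ * (z.re - p.re) + σ * (z.re - q.re) < 0) :
    ¬ IsLocalMax (fun w => infDist w F) z := by
  intro hm
  obtain ⟨⟨p0, hp0⟩, q0, hq0⟩ := both hF hne hm
  have hc : IsClosed {p : ℂ | dist z p = infDist z F} := isClosed_eq (by fun_prop) continuous_const
  obtain ⟨p, ⟨hp1, hp2, hp3⟩, hp⟩ := (hF.inter_right (hc.inter (isClosed_le (f := fun p : ℂ =>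
    z.im - p.im) (g := fun _ => 0) (by fun_prop) continuous_const))).exists_isMaxOn ⟨p0, hp0⟩
    (f := fun p : ℂ => σ * (z.re - p.re)) (by fun_prop)
  obtain ⟨q, ⟨hq1, hq2, hq3⟩, hq⟩ := (hF.inter_right (hc.inter (isClosed_le (g := fun p : ℂ =>
    z.im - p.im) (f := fun _ => 0) continuous_const (by fun_prop)))).exists_isMaxOn ⟨q0, hq0⟩
    (f := fun p : ℂ => σ * (z.re - p.re)) (by fun_prop)
  have h1 := h p hp1 q hq1 hp2 hq2 hp3 hq3
  have n : ∀ u : ℂ, dist z u = infDist z F →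
      (σ * (z.re - u.re)) ^ 2 + (z.im - u.im) ^ 2 = infDist z F ^ 2 := fun u hu => by
    rw [← hu, dist_sq, mul_pow, hσ, one_mul]
  obtain ⟨s, hs1, hs2⟩ := exists_between (show σ * (z.re - p.re) < -(σ * (z.re - q.re)) by linarith)
  have r0 : 0 ≤ infDist z F := infDist_nonneg
  have l1 : -infDist z F ≤ σ * (z.re - p.re) :=
    (abs_le.1 (abs_le_of_sq_le_sq' (by nlinarith [n p hp2]) r0 |> abs_le.2)).1
  have l2 : -infDist z F ≤ σ * (z.re - q.re) :=
    (abs_le.1 (abs_le_of_sq_le_sq' (by nlinarith [n q hq2]) r0 |> abs_le.2)).1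
  have w0 : 0 < infDist z F ^ 2 - s ^ 2 := by nlinarith
  have w1 := Real.sq_sqrt w0.le
  have w2 := Real.sqrt_pos.2 w0
  refine not_max hF hne (-σ * √(infDist z F ^ 2 - s ^ 2)) (-s) (fun u hu e => ?_) hm
  rcases le_total (z.im - u.im) 0 with h2 | h2
  · have h3 : σ * (z.re - u.re) ≤ σ * (z.re - p.re) := hp ⟨hu, e, h2⟩
    have := det_neg (s := s) (by linarith [n u e]) h2 w2 (h3.trans_lt hs1)
    linarith
  · have h3 : σ * (z.re - u.re) ≤ σ * (z.re - q.re) := hq ⟨hu, e, h2⟩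
    have := det_neg (a := σ * (z.re - u.re)) (b := -(z.im - u.im)) (s := -s)
      (by linarith [n u e]) (by linarith) w2 (by linarith)
    linarith

/-- the gradient at a touching point of a disc points to the centre -/
theorem normal {v : ℂ → ℝ} {z p : ℂ} {a b : ℝ}
    (hv : HasFDerivAt v (a • Complex.reCLM + b • Complex.imCLM) p) (h0 : v p = 0)
    (hb : ∀ w ∈ closedBall z (dist z p), 0 ≤ v w) (hr : 0 < dist z p) (hg : 0 < a ^ 2 + b ^ 2) :
    ∃ l : ℝ, 0 < l ∧ z.re - p.re = l * a ∧ z.im - p.im = l * b := by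
  have g0 := Real.sqrt_pos.2 hg
  have g1 := Real.sq_sqrt hg.le
  obtain ⟨l, hl⟩ : ∃ l, l = dist z p / √(a ^ 2 + b ^ 2) := ⟨_, rfl⟩
  have l0 : 0 < l := hl ▸ div_pos hr g0
  have l1 : l ^ 2 * (a ^ 2 + b ^ 2) = dist z p ^ 2 := by
    rw [hl, div_pow, g1]; field_simp
  have hp : p ∈ closedBall z (dist z p) := by rw [mem_closedBall, dist_comm]
  have hw : z - (l : ℂ) * (a + b * Complex.I) ∈ closedBall z (dist z p) := by
    rw [mem_closedBall, ← sq_le_sq₀ dist_nonneg dist_nonneg, dist_sq, ← l1]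
    simp only [Complex.sub_re, Complex.sub_im, Complex.add_re, Complex.add_im, Complex.mul_re,
      Complex.mul_im, Complex.ofReal_re, Complex.ofReal_im, Complex.I_re, Complex.I_im]
    exact le_of_eq (by ring)
  have hmin : IsLocalMinOn v (closedBall z (dist z p)) p :=
    IsMinOn.localize fun w hw => h0.trans_le (hb w hw)
  have h1 := hmin.hasFDerivWithinAt_nonneg hv.hasFDerivWithinAt
    (sub_mem_posTangentConeAt_of_segment_subset ((convex_closedBall _ _).segment_subset hp hw))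
  simp only [add_apply, smul_apply, Complex.reCLM_apply, Complex.imCLM_apply, smul_eq_mul,
    Complex.sub_re, Complex.sub_im, Complex.add_re, Complex.add_im, Complex.mul_re,
    Complex.mul_im, Complex.ofReal_re, Complex.ofReal_im, Complex.I_re, Complex.I_im] at h1
  have h2 := dist_sq z p
  have h3 : (z.re - p.re - l * a) ^ 2 + (z.im - p.im - l * b) ^ 2 ≤ 0 := by
    nlinarith [mul_nonneg l0.le h1]
  refine ⟨l, l0, ?_, ?_⟩ <;>
    nlinarith [sq_nonneg (z.re - p.re - l * a), sq_nonneg (z.im - p.im - l * b)]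

theorem ball_sub {Ω : Set ℂ} (ho : IsOpen Ω) (hne : Ω ≠ Set.univ) {z : ℂ} (hz : z ∈ Ω) :
    0 < infDist z (frontier Ω) ∧ ball z (infDist z (frontier Ω)) ⊆ Ω := by
  obtain ⟨y, hy, e⟩ := exists_mem_frontier_infDist_compl_eq_dist hz hne
  refine ⟨(isClosed_frontier.notMem_iff_infDist_pos ⟨y, hy⟩).1 fun h => ?_, fun w hw => ?_⟩
  · rw [ho.frontier_eq] at h
    exact h.2 hz
  · by_contra hc
    have h1 : infDist z Ωᶜ ≤ dist z w := infDist_le_dist_of_mem hc
    have h2 : infDist z (frontier Ω) ≤ dist z y := infDist_le_dist_of_mem hy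
    rw [mem_ball, dist_comm] at hw
    linarith

end Pool.Agent.Lib.AB65
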