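import Pool.Agent.Lib.AB65.Dom

set_option autoImplicit false

open Real Filter Topology Metric Laplacian

namespace Pool.Agent.Lib.AB65

variable {t : ℝ}

noncomputable def v (t : ℝ) (z : ℂ) : ℝ := V t z.re z.im

theorem v_smooth (t : ℝ) {n : WithTop ℕ∞} : ContDiff ℝ n (v t) := by
  have h1 : ContDiff ℝ n fun z : ℂ => z.re := Complex.reCLM.contDiff
  have h2 : ContDiff ℝ n fun z : ℂ => z.im := Complex.imCLM.contDiff
  exact (((contDiff_const.sub (contDiff_const.mul (h1.pow 2))).sub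
    (contDiff_const.mul (h2.pow 2))).add (contDiff_const.mul (h1.cos.mul h2.sinh))).sub
    (contDiff_const.mul ((contDiff_const.mul h1).cos.mul (contDiff_const.mul h2).cosh))

theorem v_deriv (t : ℝ) (z : ℂ) :
    HasFDerivAt (v t) (A t z.re z.im • Complex.reCLM + B t z.re z.im • Complex.imCLM) z := by
  have h1 : HasFDerivAt (fun z : ℂ => z.re) Complex.reCLM z := Complex.reCLM.hasFDerivAt
  have h2 : HasFDerivAt (fun z : ℂ => z.im) Complex.imCLM z := Complex.imCLM.hasFDerivAt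
  have h := (((((h1.pow 2).const_mul (t ^ 5)).const_sub 1).fun_sub
    ((h2.pow 2).const_mul (1 - t ^ 5))).fun_add
    ((h1.cos.fun_mul h2.sinh).const_mul (t ^ 2))).fun_sub
    (((h1.const_mul 2).cos.fun_mul (h2.const_mul 2).cosh).const_mul (T * t ^ 4))
  refine HasFDerivAt.congr_fderiv h (ContinuousLinearMap.ext fun u => ?_)
  simp [A, B]
  ring

theorem v_lap (t : ℝ) (z : ℂ) : Δ (v t) z = -2 := by
  have h1 : HasFDerivAt (fun z : ℂ => z.re) Complex.reCLM z := Complex.reCLM.hasFDerivAt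
  have h2 : HasFDerivAt (fun z : ℂ => z.im) Complex.imCLM z := Complex.imCLM.hasFDerivAt
  have hA := ((h1.const_mul (-2 * t ^ 5)).fun_sub
    ((h1.sin.fun_mul h2.sinh).const_mul (t ^ 2))).fun_add
    (((h1.const_mul 2).sin.fun_mul (h2.const_mul 2).cosh).const_mul (2 * T * t ^ 4))
  have hB := ((h2.const_mul (-2 * (1 - t ^ 5))).fun_add
    ((h1.cos.fun_mul h2.cosh).const_mul (t ^ 2))).fun_sub
    (((h1.const_mul 2).cos.fun_mul (h2.const_mul 2).sinh).const_mul (2 * T * t ^ 4))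
  have h := (hA.smul_const Complex.reCLM).fun_add (hB.smul_const Complex.imCLM)
  have e : fderiv ℝ (v t) = fun z : ℂ =>
      A t z.re z.im • Complex.reCLM + B t z.re z.im • Complex.imCLM :=
    funext fun z => (v_deriv t z).fderiv
  rw [InnerProductSpace.laplacian_eq_iteratedFDeriv_complexPlane]
  simp only [iteratedFDeriv_two_apply, e, A, B]
  rw [h.fderiv]
  simp
  ring

theorem sinh_sq_le {y : ℝ} (hy : |y| ≤ 4) : sinh y ^ 2 ≤ cosh 4 ^ 2 * y ^ 2 := by
  have a := lip_sinh (R := 4) (u := y) (w := 0) hy (by norm_num)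
  rw [sinh_zero, sub_zero, sub_zero] at a
  have := pow_le_pow_left₀ (abs_nonneg _) a 2
  rwa [mul_pow, sq_abs, sq_abs] at this

theorem Sm.exists_max (h : Sm t) (j : ℕ)
    (hj : t * ((2 * π * j) ^ 2 + cosh 4 ^ 2) < 1 / 4 - 2 * T) :
    ∃ z ∈ Om t, |z.re - 2 * π * j| < π / 2 ∧ IsLocalMax (v t) z := by
  have t0 := h.t0
  have hp := pi_pos
  have hK : IsCompact (Set.Icc (2 * π * j - π / 2) (2 * π * j + π / 2) ×ℂ
    Set.Icc (-(1 / 2) : ℝ) (1 / 2)) := isCompact_Icc.reProdIm isCompact_Icc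
  have t2 : t ^ 2 ≤ 1 := by simpa using h.pw (show 0 ≤ 2 by norm_num)
  have h0 : (⟨2 * π * j, t ^ 2 / 2⟩ : ℂ) ∈ Set.Icc (2 * π * j - π / 2) (2 * π * j + π / 2) ×ℂ
      Set.Icc (-(1 / 2) : ℝ) (1 / 2) :=
    ⟨⟨by simp only; linarith, by simp only; linarith⟩,
      by simp only; linarith [sq_nonneg t], by simp only; linarith⟩
  obtain ⟨z, hz, hm⟩ := hK.exists_isMaxOn ⟨_, h0⟩ (v_smooth t (n := 0)).continuous.continuousOn
  have h1 : 1 + T * t ^ 4 < v t z := by
    refine lt_of_lt_of_le ?_ (hm h0)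
    have c1 : cos (2 * π * j) = 1 := by rw [mul_comm, cos_nat_mul_two_pi]
    have c2 : cos (2 * (2 * π * j)) = 1 := by rw [cos_two_mul, c1]; norm_num
    have c3 : t ^ 2 / 2 ≤ sinh (t ^ 2 / 2) := self_le_sinh_iff.2 (by positivity)
    have c4 := sinh_sq_le (y := t ^ 2 / 2) (by rw [abs_of_nonneg (by positivity)]; linarith)
    have c5 := mul_lt_mul_of_pos_left hj (pow_pos t0 4)
    have c6 := mul_le_mul_of_nonneg_left c4 h.c4.1
    have c7 : T * t ^ 4 * (cosh 4 ^ 2 * t ^ 4) ≤ t ^ 4 * (cosh 4 ^ 2 * t) := by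
      refine mul_le_mul (by nlinarith [T_lt, pow_pos t0 4]) ?_ (by positivity) (by positivity)
      exact mul_le_mul_of_nonneg_left (by simpa using h.pw (show 1 ≤ 4 by norm_num)) (sq_nonneg _)
    have c8 : 0 ≤ t ^ 4 * (cosh 4 ^ 2 * t) := by positivity
    simp only [v, V, c1, c2, cosh_two_mul, cosh_sq, one_mul]
    nlinarith [mul_le_mul_of_nonneg_left c3 (sq_nonneg t), pow_pos t0 9]
  have hy : |z.im| ≤ 1 / 2 := abs_le.2 hz.2
  have h2 : ∀ x, cos x = 0 → z.re ≠ x := fun x hx e => by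
    have c2 : cos (2 * x) = -1 := by rw [cos_two_mul, hx]; norm_num
    have c4 := mul_le_mul_of_nonneg_left (sinh_sq_le (y := z.im) (by linarith)) h.c4.1
    have c5 : T * t ^ 4 * cosh 4 ^ 2 ≤ 1 / 1000 := by
      have := mul_le_mul_of_nonneg_right h.c4.2 (sq_nonneg (cosh 4))
      nlinarith [h.k2, h.t1, mul_pos (pow_pos (cosh_pos 4) 2) t0]
    have c6 := mul_le_mul_of_nonneg_right c5 (sq_nonneg z.im)
    have c7 := mul_le_mul_of_nonneg_right h.p5.2 (sq_nonneg z.im)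
    simp only [v, V, e, hx, c2, cosh_two_mul, cosh_sq] at h1
    nlinarith [mul_nonneg h.p5.1.le (sq_nonneg x), sq_nonneg z.im]
  have h3 : z.im ^ 2 ≠ (1 / 2) ^ 2 := fun e => by
    have c1 := (abs_le.1 (h.V_near z.re (y := z.im) (by linarith))).2
    rw [e] at c1
    simp only [v] at h1
    nlinarith [mul_nonneg h.p5.1.le (sq_nonneg z.re), h.c4.1, h.p5.2]
  have s0 : sin (2 * π * j) = 0 := by
    rw [mul_assoc, sin_two_mul, mul_comm π, sin_nat_mul_pi, mul_zero, zero_mul]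
  have h4 : 2 * π * j - π / 2 < z.re := lt_of_le_of_ne hz.1.1 (h2 _ (by
    rw [cos_sub_pi_div_two, s0])).symm
  have h5 : z.re < 2 * π * j + π / 2 := lt_of_le_of_ne hz.1.2 (h2 _ (by
    rw [cos_add_pi_div_two, s0, neg_zero]))
  have h6 : -(1 / 2) < z.im := lt_of_le_of_ne hz.2.1 fun e => h3 (by rw [← e]; norm_num)
  have h7 : z.im < 1 / 2 := lt_of_le_of_ne hz.2.2 fun e => h3 (by rw [e])
  refine ⟨z, ⟨by linarith, ?_⟩, abs_lt.2 ⟨by linarith, by linarith⟩, hm.isLocalMax ?_⟩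
  · exact lt_trans (by linarith [h.c4.1]) h1
  · exact mem_of_superset ((isOpen_Ioo.reProdIm isOpen_Ioo).mem_nhds ⟨⟨h4, h5⟩, h6, h7⟩)
      fun w hw => ⟨Set.Ioo_subset_Icc_self hw.1, Set.Ioo_subset_Icc_self hw.2⟩

end Pool.Agent.Lib.AB65
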