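import Pool.Agent.Lib.AB65.R2
import Pool.Agent.Lib.AB65.Geo
import Pool.Agent.Lib.AB65.Max

set_option autoImplicit false

open Real Filter Topology Metric

namespace Pool.Agent.Lib.AB65

variable {t : ℝ}

/-- the conclusion of the pair lemma at the parameter `t` -/
def PL (t : ℝ) : Prop := ∀ c : Cf, c.t = t →
  (0 < c.x → c.l1 * A c.t c.x1 c.y1 + c.l2 * A c.t c.x2 c.y2 < 0) ∧
    (c.x = 0 → c.x1 = 0 ∧ c.x2 = 0 ∧ c.y2 < c.y1)

theorem isOpen_Om (t : ℝ) : IsOpen (Om t) :=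
  (isOpen_lt Complex.continuous_im.abs continuous_const).inter
    (isOpen_lt continuous_const (v_smooth t (n := 0)).continuous)

theorem Sm.closure_sub (h : Sm t) {z : ℂ} (hz : z ∈ closure (Om t)) :
    |z.im| ≤ 3 / 2 ∧ 0 ≤ v t z :=
  closure_minimal (t := {z : ℂ | |z.im| ≤ 3 / 2 ∧ 0 ≤ v t z})
    (fun _ hw => ⟨(h.loc hw.1.le hw.2.le).1, hw.2.le⟩)
    ((isClosed_le Complex.continuous_im.abs continuous_const).inter
      (isClosed_le continuous_const (v_smooth t (n := 0)).continuous)) hz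

theorem Sm.bounded (h : Sm t) : Bornology.IsBounded (Om t) := by
  refine (isBounded_closedBall (x := (0 : ℂ)) (r := 2 / t ^ 5 + 3)).subset fun z hz => ?_
  have h1 := (h.loc hz.1.le hz.2.le).2
  have h2 : z.re ^ 2 ≤ 2 / t ^ 5 := by rw [le_div_iff₀ h.p5.1]; linarith
  have h3 : |z.re| ≤ z.re ^ 2 + 1 := by nlinarith [sq_abs z.re, sq_nonneg (|z.re| - 1)]
  rw [mem_closedBall_zero_iff]
  linarith [Complex.norm_le_abs_re_add_abs_im z, hz.1]

theorem Sm.front (h : Sm t) {p : ℂ} (hp : p ∈ frontier (Om t)) : |p.im| ≤ 2 ∧ v t p = 0 := by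
  have h1 := h.closure_sub hp.1
  rw [(isOpen_Om t).frontier_eq] at hp
  exact ⟨by linarith [h1.1], le_antisymm (not_lt.1 fun h2 => hp.2 ⟨by linarith [h1.1], h2⟩) h1.2⟩

theorem grad_ne (h : Sm t) (hP : PL t) {x y : ℝ} (hy : |y| ≤ 2) (hv : V t x y = 0) :
    0 < A t x y ^ 2 + B t x y ^ 2 := by
  have key : ∀ x, 0 ≤ x → V t x y = 0 → A t x y = 0 → B t x y = 0 → False := fun x hx hv ha hb => by
    have := hP ⟨t, x, x, y, x, y, 1, 1, h.t0, by linarith [h.t1], hy, hy, hv, hv, hb.le, hb.ge,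
      one_pos, one_pos, by simp [ha], by simp [ha], rfl, rfl, by simp, by simp⟩ rfl
    rcases hx.eq_or_lt with e | e
    · exact lt_irrefl _ (this.2 e.symm).2.2
    · simpa [ha] using this.1 e
  by_contra hc
  have ha : A t x y = 0 := by nlinarith [sq_nonneg (A t x y), sq_nonneg (B t x y)]
  have hb : B t x y = 0 := by nlinarith [sq_nonneg (A t x y), sq_nonneg (B t x y)]
  rcases le_total 0 x with hx | hx
  · exact key x hx hv ha hb
  · exact key (-x) (by linarith) (by rwa [V_neg]) (by rw [A_neg, ha, neg_zero]) (by rwa [B_neg])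

theorem Om_ne (t : ℝ) : Om t ≠ Set.univ := fun e => by
  have : (⟨0, 2⟩ : ℂ) ∈ Om t := e ▸ Set.mem_univ _
  simpa using this.1

theorem near (h : Sm t) (hP : PL t) {z p : ℂ} (hz : z ∈ Om t) (hp : p ∈ frontier (Om t))
    (e : dist z p = infDist z (frontier (Om t))) : |z.re - p.re| ≤ 4 ∧
    ∃ l : ℝ, 0 < l ∧ z.re - p.re = l * A t p.re p.im ∧ z.im - p.im = l * B t p.re p.im := by
  obtain ⟨h1, h2⟩ := ball_sub (isOpen_Om t) (Om_ne t) hz
  rw [← e] at h1 h2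
  refine ⟨?_, normal (v_deriv t p) (h.front hp).2 (fun w hw => (h.closure_sub ?_).2) h1
    (grad_ne h hP (h.front hp).1 (h.front hp).2)⟩
  · have h3 : (⟨z.re, 2⟩ : ℂ) ∉ ball z (dist z p) := fun hc => by simpa using (h2 hc).1
    rw [mem_ball, not_lt, ← sq_le_sq₀ dist_nonneg dist_nonneg, dist_sq, dist_sq] at h3
    have h4 := abs_lt.1 hz.1
    refine abs_le_of_sq_le_sq ?_ (by norm_num)
    simp only at h3
    nlinarith [sq_nonneg (z.im - p.im)]
  · rw [← closure_ball z h1.ne'] at hw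
    exact closure_mono h2 hw

theorem pairs (h : Sm t) (hP : PL t) {z p q : ℂ} (hz : z ∈ Om t) (hp : p ∈ frontier (Om t))
    (hq : q ∈ frontier (Om t)) (ep : dist z p = infDist z (frontier (Om t)))
    (eq : dist z q = infDist z (frontier (Om t))) (h1 : z.im - p.im ≤ 0) (h2 : 0 ≤ z.im - q.im) :
    B t p.re p.im ≤ 0 ∧ 0 ≤ B t q.re q.im ∧ (z.re = 0 → p.re = 0 ∧ q.re = 0) ∧
    (0 < z.re → 1 * (z.re - p.re) + 1 * (z.re - q.re) < 0) ∧
    (z.re < 0 → -1 * (z.re - p.re) + -1 * (z.re - q.re) < 0) := by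
  obtain ⟨a1, l, l0, a2, a3⟩ := near h hP hz hp ep
  obtain ⟨b1, m, m0, b2, b3⟩ := near h hP hz hq eq
  have c1 : B t p.re p.im ≤ 0 := nonpos_of_mul_nonpos_right (a3 ▸ h1) l0
  have c2 : 0 ≤ B t q.re q.im := nonneg_of_mul_nonneg_right (b3 ▸ h2) m0
  have c3 := dist_sq z p
  rw [ep, ← eq, dist_sq, a2, a3, b2, b3] at c3
  have t1 : t ≤ 1 := by linarith [h.t1]
  have k1 := hP ⟨t, z.re, p.re, p.im, q.re, q.im, l, m, h.t0, t1, (h.front hp).1, (h.front hq).1,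
    (h.front hp).2, (h.front hq).2, c1, c2, l0, m0, a2, b2, by linarith,
    by linear_combination -c3, a1, b1⟩ rfl
  have k2 := hP ⟨t, -z.re, -p.re, p.im, -q.re, q.im, l, m, h.t0, t1, (h.front hp).1,
    (h.front hq).1, (V_neg _ _ _).trans (h.front hp).2, (V_neg _ _ _).trans (h.front hq).2,
    by rwa [B_neg], by rwa [B_neg], l0, m0, by rw [A_neg]; linarith, by rw [A_neg]; linarith,
    by rw [B_neg, B_neg]; linarith, by rw [A_neg, A_neg, B_neg, B_neg]; linear_combination -c3,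
    by rwa [← neg_sub', abs_neg], by rwa [← neg_sub', abs_neg]⟩ rfl
  simp only [A_neg] at k1 k2
  exact ⟨c1, c2, fun e => ⟨(k1.2 e).1, (k1.2 e).2.1⟩, fun e => by linarith [k1.1 e],
    fun e => by linarith [k2.1 (neg_pos.2 e)]⟩

theorem unique_max (h : Sm t) (hP : PL t) (hne : (Om t).Nonempty) :
    ∃! z, z ∈ Om t ∧ IsLocalMax (fun w => infDist w (frontier (Om t))) z := by
  have hK : IsCompact (closure (Om t)) := h.bounded.isCompact_closure
  have hF : IsCompact (frontier (Om t)) := hK.of_isClosed_subset isClosed_frontier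
    frontier_subset_closure
  obtain ⟨z0, hz0⟩ := hne
  obtain ⟨y0, hy0, -⟩ := exists_mem_frontier_infDist_compl_eq_dist hz0 (Om_ne t)
  have key : ∀ z ∈ Om t, IsLocalMax (fun w => infDist w (frontier (Om t))) z → z.re = 0 ∧
      ∃ a b : ℝ, (|a| ≤ 2 ∧ V t 0 a = 0 ∧ B t 0 a ≤ 0) ∧ (|b| ≤ 2 ∧ V t 0 b = 0 ∧ 0 ≤ B t 0 b) ∧
        z.im = (a + b) / 2 := by
    intro z hz hm
    have e : z.re = 0 := by
      rcases lt_trichotomy z.re 0 with e | e | e
      · exact absurd hm (not_max_of_pairs hF ⟨y0, hy0⟩ (σ := -1) (by norm_num)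
          fun p hp q hq ep eq h1 h2 => (pairs h hP hz hp hq ep eq h1 h2).2.2.2.2 e)
      · exact e
      · exact absurd hm (not_max_of_pairs hF ⟨y0, hy0⟩ (σ := 1) (by norm_num)
          fun p hp q hq ep eq h1 h2 => (pairs h hP hz hp hq ep eq h1 h2).2.2.2.1 e)
    obtain ⟨⟨p, hp, ep, h1⟩, q, hq, eq, h2⟩ := both hF ⟨y0, hy0⟩ hm
    obtain ⟨c1, c2, c3, -⟩ := pairs h hP hz hp hq ep eq h1 h2
    obtain ⟨c4, c5⟩ := c3 e
    have d1 := h.front hp
    have d2 := h.front hq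
    have d3 := dist_sq z p
    rw [ep, ← eq, dist_sq, e, c4, c5] at d3
    simp only [v, c4, c5] at d1 d2 c1 c2
    have d4 : z.im - q.im = -(z.im - p.im) :=
      (sq_eq_sq₀ h2 (by linarith)).1 (by linarith)
    exact ⟨e, p.im, q.im, ⟨d1.1, d1.2, c1⟩, ⟨d2.1, d2.2, c2⟩, by linarith⟩
  obtain ⟨z, hz, hm⟩ := hK.exists_isMaxOn ⟨z0, subset_closure hz0⟩
    (continuous_infDist_pt (frontier (Om t))).continuousOn
  have hz1 : z ∈ Om t := by
    by_contra hc
    have h1 : z ∈ frontier (Om t) := by rw [(isOpen_Om t).frontier_eq]; exact ⟨hz, hc⟩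
    have h2 : infDist z0 (frontier (Om t)) ≤ infDist z (frontier (Om t)) :=
      hm (subset_closure hz0)
    rw [infDist_zero_of_mem h1] at h2
    exact absurd (ball_sub (isOpen_Om t) (Om_ne t) hz0).1 (not_lt.2 h2)
  have hz2 := hm.isLocalMax (mem_of_superset ((isOpen_Om t).mem_nhds hz1) subset_closure)
  refine ⟨z, ⟨hz1, hz2⟩, fun w hw => ?_⟩
  obtain ⟨e1, a, b, ha, hb, e2⟩ := key z hz1 hz2
  obtain ⟨e3, a', b', ha', hb', e4⟩ := key w hw.1 hw.2
  have f1 : a = a' := by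
    rcases lt_trichotomy a a' with l | l | l
    · exact absurd (h.zeros ha.1 ha'.1 l (ha.2.1.trans ha'.2.1.symm)).1 (not_lt.2 ha.2.2)
    · exact l
    · exact absurd (h.zeros ha'.1 ha.1 l (ha'.2.1.trans ha.2.1.symm)).1 (not_lt.2 ha'.2.2)
  have f2 : b = b' := by
    rcases lt_trichotomy b b' with l | l | l
    · exact absurd (h.zeros hb.1 hb'.1 l (hb.2.1.trans hb'.2.1.symm)).2 (not_lt.2 hb'.2.2)
    · exact l
    · exact absurd (h.zeros hb'.1 hb.1 l (hb'.2.1.trans hb.2.1.symm)).2 (not_lt.2 hb.2.2)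
  exact Complex.ext (e3.trans e1.symm) (by rw [e2, e4, f1, f2])

theorem exists_t (k : ℕ) : ∃ t : ℝ, Sm t ∧ PL t ∧
    t * ((2 * π * k) ^ 2 + cosh 4 ^ 2) < 1 / 4 - 2 * T := by
  obtain ⟨τ, hτ, h⟩ := pair_lemma
  have h1 : ∀ᶠ t : ℝ in 𝓝 0, cosh 4 ^ 4 * t < 1 / 1000 :=
    ContinuousAt.eventually_lt (by fun_prop) continuousAt_const (by norm_num)
  have h2 : ∀ᶠ t : ℝ in 𝓝 0, t * ((2 * π * k) ^ 2 + cosh 4 ^ 2) < 1 / 4 - 2 * T :=
    ContinuousAt.eventually_lt (by fun_prop) continuousAt_const (by linarith [T_lt])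
  obtain ⟨t, ⟨⟨h3, h4⟩, h5⟩, h6⟩ := ((((h1.and h2).and (gt_mem_nhds hτ)).filter_mono
    nhdsWithin_le_nhds).and (self_mem_nhdsWithin (s := Set.Ioi (0 : ℝ)))).exists
  exact ⟨t, ⟨h6, h3.le⟩, fun c hc => h c (hc ▸ h5), h4⟩

end Pool.Agent.Lib.AB65
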