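import Pool.Agent.Lib.AB65.Defs

set_option autoImplicit false

open Real Filter Asymptotics Topology

namespace Pool.Agent.Lib.AB65

open O

variable {l : Filter Cf} {X Y Λ : Cf → ℝ}

theorem dbl {w f g : Cf → ℝ} {n : ℕ} (h : O l w n fun c => f c - g c) :
    O l w n fun c => 2 * f c - 2 * g c := (h.cm 2).congr fun c => by ring

theorem B_main (hY : O l one 0 Y) : O l one 2 fun c => B c.t (X c) (Y c) + 2 * Y c :=
  (((((O.pow 5).mul hY (by omega)).cm 2).add ((O.pow 2).mul (k := 2) ((cos0 X).mul (k := 0) hY.cosh0 (by omega)) (by omega))).sub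
    (((O.pow 4).mul ((cos0 fun c => 2 * X c).mul (k := 0) (hY.cm 2).sinh0 (by omega)) (by omega)).cm (2 * T))).congr
    fun c => by simp only [B]; ring

theorem B_bdd (hY : O l one 0 Y) : O l one 0 fun c => B c.t (X c) (Y c) :=
  (((B_main (X := X) hY).mono (by omega)).sub (hY.cm 2)).congr fun c => by ring

theorem V_main (hY : O l one 0 Y) (hV : ∀ c, V c.t (X c) (Y c) = 0) :
    O l one 2 fun c => Y c ^ 2 - 1 + c.t ^ 5 * X c ^ 2 :=
  ((((O.pow 5).mul (hY.mul (k := 0) hY (by omega)) (by omega)).add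
    ((O.pow 2).mul (k := 2) ((cos0 X).mul (k := 0) hY.sinh0 (by omega)) (by omega))).sub
    (((O.pow 4).mul ((cos0 fun c => 2 * X c).mul (k := 0) (hY.cm 2).cosh0 (by omega)) (by omega)).cm T)).congr
    fun c => by have := hV c; simp only [V] at this; linear_combination this

/-- rough facts on a boundary point in the central region -/
theorem rough (hl : Tendsto Cf.t l (𝓝 0)) (hr : ∀ᶠ c in l, c.t ^ 3 * c.x ^ 2 ≤ 1) {σ : ℝ}
    (hσ : σ ^ 2 = 1) (hY : O l one 0 Y) (hV : ∀ c, V c.t (X c) (Y c) = 0)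
    (hX : O l one 0 fun c => c.x - X c) (hB : ∀ c, σ * B c.t (X c) (Y c) ≤ 0) :
    (O l one 2 fun c => Y c - σ) ∧ (O l one 2 fun c => c.t ^ 5 * X c) ∧
      (O l one 2 fun c => B c.t (X c) (Y c) + 2 * σ) ∧
      (O l one 2 fun c => A c.t (X c) (Y c)) ∧ O l X 2 fun c => A c.t (X c) (Y c) := by
  have a1 : O l one 0 fun c => c.t ^ 3 * c.x ^ 2 := of_le 1 (hr.mono fun c hc => by
    rw [abs_of_nonneg (by have := c.t0; positivity)]; simpa using hc)
  have a2 : O l one 0 fun c => c.t ^ 3 * c.x := of_le 1 (hr.mono fun c hc => by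
    have h1 : c.t ^ 3 ≤ 1 := pow_le_one₀ c.t0.le c.t1
    have h2 : 0 ≤ c.t ^ 3 := pow_nonneg c.t0.le _
    have h3 : (c.t ^ 3 * c.x) ^ 2 ≤ 1 := by nlinarith
    simpa using (sq_le_one_iff_abs_le_one _).1 h3)
  have a3 : O l one 0 fun c => c.t ^ 3 * X c :=
    (a2.sub ((O.pow 3).mul hX (by omega))).congr fun c => by ring
  have a4 : O l one 0 fun c => c.t ^ 3 * X c ^ 2 :=
    (a1.sub ((a2.add a3).mul hX (by omega))).congr fun c => by ring
  have a5 : O l one 2 fun c => Y c ^ 2 - 1 :=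
    ((V_main hY hV).sub ((O.pow 2).mul a4 (by omega))).congr fun c => by ring
  have hs : |σ| = 1 := by rw [← sq_eq_sq₀ (abs_nonneg _) zero_le_one, sq_abs, hσ, one_pow]
  have a6 : O l one 2 fun c => Y c - σ := by
    refine a5.le 2 ?_
    filter_upwards [((B_main (X := X) hY).mono (k := 0 + 1) (by omega)).small hl one_pos] with c hc
    simp only [pow_zero, abs_one, mul_one] at hc
    have h1 : |σ * (B c.t (X c) (Y c) + 2 * Y c)| ≤ 1 := by rwa [abs_mul, hs, one_mul]
    have h2 : 1 / 2 ≤ |Y c + σ| := by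
      have h3 : |σ * (Y c + σ)| = |Y c + σ| := by rw [abs_mul, hs, one_mul]
      rw [← h3]
      refine le_trans ?_ (le_abs_self _)
      have := (abs_le.1 h1).1
      have := hB c
      nlinarith
    have h4 : Y c ^ 2 - 1 = (Y c - σ) * (Y c + σ) := by linear_combination hσ
    rw [h4, abs_mul]
    nlinarith [abs_nonneg (Y c - σ)]
  have a7 : O l one 2 fun c => c.t ^ 5 * X c := ((O.pow 2).mul a3 (by omega)).congr fun c => by ring
  refine ⟨a6, a7, ((B_main hY).sub (a6.cm 2)).congr fun c => by ring, ?_, ?_⟩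
  · exact (((a7.cm (-2)).sub ((O.pow 2).mul ((sin0 X).mul (k := 0) hY.sinh0 (by omega)) (by omega))).add
      (((O.pow 4).mul ((sin0 fun c => 2 * X c).mul (k := 0) (hY.cm 2).cosh0 (by omega)) (by omega)).cm (2 * T))).congr
      fun c => by simp only [A]; ring
  · exact (((((O.pow 5).mul O.refl (by omega)).cm (-2)).sub
      ((O.pow 2).mul (k := 2) (hY.sinh0.mul (k := 0) O.refl.sin1 (by omega)) (by omega))).add
      (((O.pow 4).mul ((hY.cm 2).cosh0.mul (k := 0) (O.refl.cm 2).sin1 (by omega)) (by omega)).cm (2 * T))).congr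
      fun c => by simp only [A]; ring

/-- fine facts on a boundary point in the central region -/
theorem fine (hl : Tendsto Cf.t l (𝓝 0)) {σ : ℝ} (hY : O l one 0 Y)
    (h1 : O l one 2 fun c => Y c - σ) (h4 : O l one 2 fun c => A c.t (X c) (Y c))
    (h5 : O l X 2 fun c => A c.t (X c) (Y c)) (hΛ : O l one 2 fun c => Λ c - 1 / 2)
    (he : ∀ c, c.x - X c = Λ c * A c.t (X c) (Y c)) :
    (O l one 2 fun c => X c - c.x) ∧ (O l Cf.x 2 fun c => X c - c.x) ∧
      (O l Cf.x 4 fun c => sin (X c) - sin c.x - c.t ^ 2 * (sin c.x * cos c.x) * sinh σ / 2) ∧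
      (O l one 4 fun c => B c.t (X c) (Y c) + 2 * Y c - c.t ^ 2 * cos c.x * cosh σ) ∧
      (O l one 4 fun c => sinh (Y c) - sinh σ - cosh σ * (Y c - σ)) ∧
      (O l one 2 fun c => cos (X c) * sinh (Y c) - cos c.x * sinh σ) ∧
      O l Cf.x 2 fun c => sin (2 * X c) * cosh (2 * Y c) -
        2 * (sin c.x * cos c.x) * cosh (2 * σ) := by
  have hΛ0 : O l one 0 Λ := ((hΛ.mono (by omega)).add (O.const (1 / 2))).congr fun c => by ring
  have a1 : O l one 2 fun c => X c - c.x :=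
    ((hΛ0.mul h4 (by omega)).cm (-1)).congr fun c => by linear_combination he c
  have a2 : O l X (0 + 1) fun c => X c - c.x :=
    ((hΛ0.mul h5 (by omega)).cm (-1)).congr fun c => by linear_combination he c
  have a3 : O l Cf.x 0 X := of_le 2 ((a2.small hl one_half_pos).mono fun c hc => by
    have := abs_sub_abs_le_abs_sub (X c) c.x
    simp only [pow_zero, one_mul] at hc
    linarith)
  have a4 : O l Cf.x 2 fun c => A c.t (X c) (Y c) := h5.trans a3
  have a5 : O l Cf.x 2 fun c => X c - c.x :=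
    ((hΛ0.mul a4 (by omega)).cm (-1)).congr fun c => by linear_combination he c
  have s1 : O l Cf.x 0 fun c => sin c.x := O.refl.sin1
  have b1 : O l one 2 fun c => sinh (Y c) - sinh σ := sinhD hY (O.const σ) h1
  have b2 : O l one 2 fun c => cosh (Y c) - cosh σ := coshD hY (O.const σ) h1
  have b3 : O l one 2 fun c => cosh (2 * Y c) - cosh (2 * σ) :=
    coshD (hY.cm 2) (O.const _) (dbl h1)
  have a6 : O l Cf.x 4 fun c => A c.t (X c) (Y c) + c.t ^ 2 * sin c.x * sinh σ :=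
    (((((O.pow 5).mul a3 (by omega)).cm (-2)).sub ((O.pow 2).mul
      ((hY.sinh0.mul (k := 2) a5.sinD (by omega)).add (b1.mul s1 (by omega))) (by omega))).add
      (((O.pow 4).mul ((hY.cm 2).cosh0.mul (k := 0) (a3.cm 2).sin1 (by omega)) (by omega)).cm (2 * T))).congr
      fun c => by simp only [A]; ring
  have a7 : O l Cf.x 4 fun c => X c - c.x - c.t ^ 2 * sin c.x * sinh σ / 2 :=
    (((hΛ.mul a4 (by omega)).cm (-1)).sub (a6.cm (1 / 2))).congr fun c => by linear_combination he c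
  refine ⟨a1, a5, ?_, ?_, ?_, ?_, ?_⟩
  · exact (((a1.mul (k := 4) a5 (by omega)).le 1 (Eventually.of_forall fun c => tay_sin (X c) c.x)).add
      ((cos0 Cf.x).mul a7 (by omega))).congr fun c => by ring
  · exact (((((O.pow 5).mul hY (by omega)).cm 2).add ((O.pow 2).mul (k := 4)
      ((hY.cosh0.mul (k := 2) a1.cosD (by omega)).add ((cos0 Cf.x).mul b2 (by omega))) (by omega))).sub
      (((O.pow 4).mul ((cos0 fun c => 2 * X c).mul (k := 0) (hY.cm 2).sinh0 (by omega)) (by omega)).cm (2 * T))).congr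
      fun c => by simp only [B]; ring
  · obtain ⟨R, hR⟩ := hY.pair (O.const σ)
    exact (h1.mul h1 (by omega)).le (cosh R) (hR.mono fun c hc => tay_sinh hc.1 hc.2)
  · exact ((hY.sinh0.mul a1.cosD (by omega)).add ((cos0 Cf.x).mul b1 (by omega))).congr fun c => by ring
  · exact (((hY.cm 2).cosh0.mul (dbl a5).sinD (by omega)).add (b3.mul (O.refl.cm 2).sin1 (by omega))).congr
      fun c => by simp only [sin_two_mul c.x]; ring

theorem central (hl : Tendsto Cf.t l (𝓝 0)) (hr : ∀ᶠ c in l, c.t ^ 3 * c.x ^ 2 ≤ 1) :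
    (O l Cf.x 6 fun c => A c.t c.x1 c.y1 * B c.t c.x2 c.y2 - A c.t c.x2 c.y2 * B c.t c.x1 c.y1 +
      8 * c.t ^ 5 * c.x) ∧ (O l Cf.x 2 fun c => c.x1 - c.x) ∧ (O l Cf.x 2 fun c => c.x2 - c.x) ∧
      O l one 2 fun c => c.y1 - c.y2 - 2 := by
  have y1 : O l one 0 Cf.y1 := bdd 2 Cf.hy1
  have y2 : O l one 0 Cf.y2 := bdd 2 Cf.hy2
  obtain ⟨p1, p2, p3, p4, p5⟩ := rough hl hr (σ := 1) (by norm_num) y1 Cf.v1 (bdd 4 Cf.d1)
    fun c => by simpa using c.b1
  obtain ⟨q1, q2, q3, q4, q5⟩ := rough hl hr (σ := -1) (by norm_num) y2 Cf.v2 (bdd 4 Cf.d2)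
    fun c => by simpa using c.b2
  have B1 : O l one 0 fun c => B c.t c.x1 c.y1 := B_bdd y1
  have B2 : O l one 0 fun c => B c.t c.x2 c.y2 := B_bdd y2
  have L : ∀ᶠ c in l, |c.l1| ≤ 4 * |one c| ∧ |c.l2| ≤ 4 * |one c| := by
    filter_upwards [(p3.mono (k := 0 + 1) (by omega)).small hl one_pos,
      (q3.mono (k := 0 + 1) (by omega)).small hl one_pos] with c h1 h2
    simp only [pow_zero, abs_one, mul_one] at h1 h2 ⊢
    have h3 := c.e3
    have h4 := mul_le_mul_of_nonneg_left (abs_le.1 h1).2 c.p1.le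
    have h5 := mul_le_mul_of_nonneg_left (abs_le.1 h2).1 c.p2.le
    rw [abs_of_pos c.p1, abs_of_pos c.p2]
    constructor <;> nlinarith [c.p1, c.p2, abs_le.1 c.hy1, abs_le.1 c.hy2]
  have l1 : O l one 0 Cf.l1 := of_le 4 (L.mono fun _ h => h.1)
  have l2 : O l one 0 Cf.l2 := of_le 4 (L.mono fun _ h => h.2)
  have yy : O l one 2 fun c => c.y1 - c.y2 - 2 := (p1.sub q1).congr fun c => by ring
  have m1 : O l one 2 fun c => c.l1 + c.l2 - 1 :=
    ((((l1.mul p3 (by omega)).sub (l2.mul q3 (by omega))).add yy).cm (1 / 2)).congr fun c => by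
      linear_combination (1 / 2) * c.e3
  have m2 : O l one 2 fun c => (c.l1 - c.l2) * (c.l1 + c.l2) :=
    ((((l2.mul (k := 0) l2 (by omega)).mul ((q4.mul (k := 2) q4 (by omega)).add ((B2.add (O.const 2)).mul q3 (by omega))) (by omega)).sub
      ((l1.mul (k := 0) l1 (by omega)).mul ((p4.mul (k := 2) p4 (by omega)).add ((B1.sub (O.const 2)).mul p3 (by omega))) (by omega))).cm
      (1 / 4)).congr fun c => by linear_combination (-1 / 4) * c.e4
  have m3 : O l one 2 fun c => c.l1 - c.l2 :=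
    (m2.sub ((l1.sub l2).mul m1 (by omega))).congr fun c => by ring
  obtain ⟨r1, r2, r3, r4, r5, r6, r7⟩ := fine hl y1 p1 p4 p5 (Λ := Cf.l1)
    (((m1.add m3).cm (1 / 2)).congr fun c => by ring) Cf.e1
  obtain ⟨s1, s2, s3, s4, s5, s6, s7⟩ := fine hl y2 q1 q4 q5 (Λ := Cf.l2)
    (((m1.sub m3).cm (1 / 2)).congr fun c => by ring) Cf.e2
  simp only [sinh_neg, cosh_neg, mul_neg, mul_one] at r7 s3 s4 s5 s6 s7
  have ys : O l one 2 fun c => c.y1 + c.y2 := (p1.add q1).congr fun c => by ring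
  have u1 : O l one 4 fun c => c.y1 + c.y2 - c.t ^ 2 * cos c.x * sinh 1 :=
    (((((((O.pow 5).mul ((y1.sub y2).mul (k := 0) (y1.add y2) (by omega)) (by omega)).sub (yy.mul ys (by omega))).sub
      ((p2.add q2).mul (r1.sub s1) (by omega))).add ((O.pow 2).mul (r6.sub s6) (by omega))).sub
      (((O.pow 4).mul (((cos0 fun c => 2 * c.x1).mul (k := 0) (y1.cm 2).cosh0 (by omega)).sub
        ((cos0 fun c => 2 * c.x2).mul (y2.cm 2).cosh0 (by omega))) (by omega)).cm T)).cm (1 / 2)).congr fun c => by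
      have h1 := c.v1
      have h2 := c.v2
      simp only [V] at h1 h2
      linear_combination (1 / 2) * h1 - (1 / 2) * h2
  have c1 : O l one 2 fun c => sinh c.y1 - sinh 1 := sinhD y1 (O.const 1) p1
  have c2 : O l one 2 fun c => sinh c.y2 + sinh 1 :=
    (sinhD y2 (O.const (-1)) q1).congr fun c => by simp
  have u2 : O l one 4 fun c => sinh c.y1 * c.y2 - sinh c.y2 * c.y1 -
      (sinh 1 - cosh 1) * (c.t ^ 2 * cos c.x * sinh 1) :=
    (((y2.mul r5 (by omega)).sub (y1.mul s5 (by omega))).add (u1.cm (sinh 1 - cosh 1))).congr fun c => by ring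
  have u3 : O l one 4 fun c => sinh c.y1 * B c.t c.x2 c.y2 - sinh c.y2 * B c.t c.x1 c.y1 -
      c.t ^ 2 * cos c.x * (4 * sinh 1 * cosh 1 - 2 * sinh 1 ^ 2) :=
    ((((y1.sinh0.mul s4 (by omega)).sub (y2.sinh0.mul r4 (by omega))).sub (u2.cm 2)).add
      ((O.pow 2).mul (((cos0 Cf.x).mul (k := 2) (c1.sub c2) (by omega)).cm (cosh 1)) (by omega))).congr fun c => by ring
  have sx : O l Cf.x 0 fun c => sin c.x := O.refl.sin1
  have sc : O l Cf.x 0 fun c => sin c.x * cos c.x :=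
    ((cos0 Cf.x).mul sx (by omega)).congr fun c => by ring
  have w1 : O l one 2 fun c => sinh c.y1 * B c.t c.x2 c.y2 - 2 * sinh 1 :=
    ((B2.mul c1 (by omega)).add (q3.cm (sinh 1))).congr fun c => by ring
  have w2 : O l one 2 fun c => sinh c.y2 * B c.t c.x1 c.y1 - 2 * sinh 1 :=
    ((B1.mul c2 (by omega)).sub (p3.cm (sinh 1))).congr fun c => by ring
  have u4 : O l Cf.x 4 fun c => sin c.x1 * sinh c.y1 * B c.t c.x2 c.y2 -
      sin c.x2 * sinh c.y2 * B c.t c.x1 c.y1 -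
      4 * sinh 1 * cosh 1 * (c.t ^ 2 * (sin c.x * cos c.x)) :=
    ((((u3.mul sx (by omega)).add ((y1.sinh0.mul (k := 0) B2 (by omega)).mul r3 (by omega))).sub
      ((y2.sinh0.mul (k := 0) B1 (by omega)).mul s3 (by omega))).add
      ((((O.pow 2).mul (k := 4) (w1.add w2) (by omega)).mul sc (by omega)).cm (sinh 1 / 2))).congr fun c => by ring
  have u5 : O l Cf.x 2 fun c => sin (2 * c.x1) * cosh (2 * c.y1) * B c.t c.x2 c.y2 -
      sin (2 * c.x2) * cosh (2 * c.y2) * B c.t c.x1 c.y1 - 8 * cosh 2 * (sin c.x * cos c.x) :=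
    (((B2.mul r7 (by omega)).sub (B1.mul s7 (by omega))).add (((q3.sub p3).mul sc (by omega)).cm (2 * cosh 2))).congr
      fun c => by ring
  have u6 : O l Cf.x 2 fun c => c.x1 * B c.t c.x2 c.y2 - c.x2 * B c.t c.x1 c.y1 - 4 * c.x :=
    (((B2.mul r2 (by omega)).sub (B1.mul s2 (by omega))).add ((q3.sub p3).mul O.refl (by omega))).congr fun c => by ring
  refine ⟨(((((O.pow 5).mul u6 (by omega)).cm (-2)).sub ((O.pow 2).mul u4 (by omega))).add
    (((O.pow 4).mul u5 (by omega)).cm (2 * T))).congr fun c => ?_, r2, s2, yy⟩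
  simp only [A]
  linear_combination (-16 * c.t ^ 4 * (sin c.x * cos c.x)) * T_mul

end Pool.Agent.Lib.AB65
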