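import Pool.Agent.Lib.AB65.R1

set_option autoImplicit false

open Real Filter Asymptotics Topology

namespace Pool.Agent.Lib.AB65

open O

variable {l : Filter Cf} {X Y : Cf → ℝ}

theorem big (hl : Tendsto Cf.t l (𝓝 0)) (hr : ∀ᶠ c in l, 1 ≤ c.t ^ 3 * c.x ^ 2 ∧ 0 < c.x)
    {w f : Cf → ℝ} (hf : O l w 4 f) : ∀ᶠ c in l, |f c| ≤ 1 / 2 * (c.t ^ 5 * c.x * |w c|) := by
  obtain ⟨C, hC, h⟩ := hf.bound
  filter_upwards [h, hr, hl.eventually (gt_mem_nhds (show 0 < 1 / (4 * C ^ 2) by positivity))]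
    with c h1 h2 h3
  rw [lt_div_iff₀ (by positivity)] at h3
  have t0 := c.t0
  have h4 : (2 * C) ^ 2 ≤ (c.t * c.x) ^ 2 := by
    refine le_of_mul_le_mul_left ?_ t0
    nlinarith [h2.1]
  have h5 : 2 * C ≤ c.t * c.x := (sq_le_sq₀ (by positivity) (mul_pos t0 h2.2).le).1 h4
  have h6 : 0 ≤ c.t ^ 4 * |w c| := by positivity
  nlinarith [mul_le_mul_of_nonneg_right h5 h6]

theorem far_pt (hl : Tendsto Cf.t l (𝓝 0)) (hr : ∀ᶠ c in l, 1 ≤ c.t ^ 3 * c.x ^ 2 ∧ 0 < c.x)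
    (hY : O l one 0 Y) (hV : ∀ c, V c.t (X c) (Y c) = 0) (hX : ∀ c, |c.x - X c| ≤ 4) :
    (∀ᶠ c in l, c.x / 2 ≤ X c) ∧ (O l one 0 fun c => c.t ^ 5 * X c) ∧
      ∃ K, 0 < K ∧ ∀ᶠ c in l, A c.t (X c) (Y c) < K * (c.t ^ 2 * |B c.t (X c) (Y c)|) := by
  have a1 : ∀ᶠ c in l, c.x / 2 ≤ X c := by
    filter_upwards [hr, hl.eventually (gt_mem_nhds (show (0 : ℝ) < 1 / 64 by norm_num))]
      with c h2 h3
    have h4 : c.t ^ 3 ≤ c.t := pow_le_of_le_one c.t0.le c.t1 (by norm_num)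
    have h5 : 8 ^ 2 ≤ c.x ^ 2 := by nlinarith [h2.1, sq_nonneg c.x]
    have h6 : 8 ≤ c.x := (sq_le_sq₀ (by norm_num) h2.2.le).1 h5
    linarith [(abs_le.1 (hX c)).2]
  have a2 : O l one 0 fun c => c.t ^ 5 * X c ^ 2 + 1 :=
    ((((V_main hY hV).mono (by omega)).sub (hY.mul hY (by omega))).add (O.const 2)).congr fun c => by ring
  have a3 : O l one 0 fun c => c.t ^ 5 * X c := a2.le 1 (Eventually.of_forall fun c => by
    have h1 : 0 ≤ c.t ^ 5 := pow_nonneg c.t0.le _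
    have h2 : c.t ^ 5 ≤ 1 := pow_le_one₀ c.t0.le c.t1
    rw [one_mul, abs_of_nonneg (a := _ + _) (by positivity), abs_le]
    constructor <;> nlinarith [mul_nonneg h1 (sq_nonneg (X c + 1)),
      mul_nonneg h1 (sq_nonneg (X c - 1))])
  have b0 : O l one 0 fun c => -1 / 2 * B c.t (X c) (Y c) := (B_bdd hY).cm _
  have a4 : O l (fun c => B c.t (X c) (Y c)) 2 fun c =>
      c.t ^ 2 * (sin (X c) * (sinh 0 - sinh (-1 / 2 * B c.t (X c) (Y c)))) :=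
    (O.pow 2).mul ((sin0 X).mul (k := 0) (sinhD (O.const 0) b0
      ((O.refl.cm (1 / 2)).congr fun c => by ring)) (by omega)) (by omega)
  have a5 : O l one 4 fun c => A c.t (X c) (Y c) + 2 * c.t ^ 5 * X c -
      c.t ^ 2 * (sin (X c) * (sinh 0 - sinh (-1 / 2 * B c.t (X c) (Y c)))) :=
    ((((O.pow 4).mul ((sin0 fun c => 2 * X c).mul (k := 0) (hY.cm 2).cosh0 (by omega)) (by omega)).cm (2 * T)).sub
      ((O.pow 2).mul ((sin0 X).mul (k := 2) (sinhD hY b0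
        (((B_main (X := X) hY).cm (1 / 2)).congr fun c => by ring)) (by omega)) (by omega))).congr
      fun c => by simp only [A, sinh_zero]; ring
  obtain ⟨K, hK, h⟩ := a4.bound
  refine ⟨a1, a3, K, hK, ?_⟩
  filter_upwards [a1, h, big hl hr a5, hr] with c h1 h2 h3 h4
  have h5 : 0 < c.t ^ 5 := pow_pos c.t0 _
  simp only [abs_one, mul_one] at h3
  nlinarith [(abs_le.1 h2).2, (abs_le.1 h3).2, mul_pos h5 h4.2,
    mul_le_mul_of_nonneg_left h1 h5.le]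

theorem det_nonneg {a b c d : ℝ} (h : a ^ 2 + b ^ 2 = c ^ 2 + d ^ 2) (hb : b ≤ 0) (hd : 0 ≤ d)
    (hs : 0 ≤ a + c) : 0 ≤ a * d - c * b := by
  rcases le_total 0 a with ha | ha
  · rcases le_total 0 c with hc | hc
    · nlinarith [mul_nonneg ha hd, mul_nonneg hc (neg_nonneg.2 hb)]
    · have h1 : -b ≤ d := (sq_le_sq₀ (by linarith) hd).1 (by nlinarith)
      nlinarith [mul_nonneg hs hd, mul_nonneg (neg_nonneg.2 hc) (sub_nonneg.2 h1)]
  · have h1 : d ≤ -b := (sq_le_sq₀ hd (by linarith)).1 (by nlinarith)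
    nlinarith [mul_nonneg hs (neg_nonneg.2 hb), mul_nonneg (neg_nonneg.2 ha) (sub_nonneg.2 h1)]

theorem Cf.det (c : Cf) (h : 0 ≤ c.l1 * A c.t c.x1 c.y1 + c.l2 * A c.t c.x2 c.y2) :
    0 ≤ A c.t c.x1 c.y1 * B c.t c.x2 c.y2 - A c.t c.x2 c.y2 * B c.t c.x1 c.y1 := by
  have h1 := det_nonneg (a := c.l1 * A c.t c.x1 c.y1) (b := c.l1 * B c.t c.x1 c.y1)
    (c := c.l2 * A c.t c.x2 c.y2) (d := c.l2 * B c.t c.x2 c.y2) (by linear_combination c.e4)
    (mul_nonpos_of_nonneg_of_nonpos c.p1.le c.b1) (mul_nonneg c.p2.le c.b2) h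
  refine nonneg_of_mul_nonneg_right (a := c.l1 * c.l2) (h1.trans_eq (by ring)) ?_
  exact mul_pos c.p1 c.p2

theorem far (hl : Tendsto Cf.t l (𝓝 0)) (hr : ∀ᶠ c in l, 1 ≤ c.t ^ 3 * c.x ^ 2 ∧ 0 < c.x)
    (hs : ∀ᶠ c in l, 0 ≤ c.l1 * A c.t c.x1 c.y1 + c.l2 * A c.t c.x2 c.y2) :
    ∀ᶠ _c in l, False := by
  have y1 : O l one 0 Cf.y1 := bdd 2 Cf.hy1
  have y2 : O l one 0 Cf.y2 := bdd 2 Cf.hy2
  have B1 : O l one 0 fun c => B c.t c.x1 c.y1 := B_bdd y1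
  have B2 : O l one 0 fun c => B c.t c.x2 c.y2 := B_bdd y2
  obtain ⟨p1, p2, K1, hK1, p3⟩ := far_pt hl hr y1 Cf.v1 Cf.d1
  obtain ⟨q1, q2, K2, hK2, q3⟩ := far_pt hl hr y2 Cf.v2 Cf.d2
  have k1 : ∀ᶠ c in l, 0 < c.y1 - c.y2 ∧
      |c.x1 - c.x2| ≤ (2 * (K1 + K2)) * |c.t ^ 2 * (c.y1 - c.y2)| := by
    filter_upwards [p3, q3, hs] with c h1 h2 h3
    rw [abs_of_nonpos c.b1] at h1
    rw [abs_of_nonneg c.b2] at h2
    have h4 := mul_lt_mul_of_pos_left h1 c.p1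
    have h5 := mul_lt_mul_of_pos_left h2 c.p2
    have t2 : 0 < c.t ^ 2 := pow_pos c.t0 _
    have u1 : 0 ≤ c.t ^ 2 * (c.l1 * -B c.t c.x1 c.y1) :=
      mul_nonneg t2.le (mul_nonneg c.p1.le (neg_nonneg.2 c.b1))
    have u2 : 0 ≤ c.t ^ 2 * (c.l2 * B c.t c.x2 c.y2) :=
      mul_nonneg t2.le (mul_nonneg c.p2.le c.b2)
    have u3 : c.t ^ 2 * (c.y1 - c.y2) =
        c.t ^ 2 * (c.l1 * -B c.t c.x1 c.y1) + c.t ^ 2 * (c.l2 * B c.t c.x2 c.y2) := by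
      linear_combination c.t ^ 2 * c.e3
    have u4 := mul_nonneg hK1.le u1
    have u5 := mul_nonneg hK1.le u2
    have u6 := mul_nonneg hK2.le u1
    have u7 := mul_nonneg hK2.le u2
    have u8 : 0 < (K1 + K2) * (c.t ^ 2 * (c.y1 - c.y2)) := by rw [u3]; nlinarith
    have u9 : 0 < c.t ^ 2 * (c.y1 - c.y2) :=
      (mul_pos_iff_of_pos_left (add_pos hK1 hK2)).1 u8
    refine ⟨(mul_pos_iff_of_pos_left t2).1 u9, ?_⟩
    rw [abs_of_pos u9, u3, abs_le]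
    constructor <;> nlinarith [c.e1, c.e2]
  have h0 : O l one 0 fun c => c.y1 - c.y2 := y1.sub y2
  have hh : O l (fun c => c.y1 - c.y2) 0 fun c => c.y1 - c.y2 := O.refl
  have dx : O l (fun c => c.y1 - c.y2) 2 fun c => c.x1 - c.x2 :=
    ((O.pow 2).mul hh (by omega)).le _ (k1.mono fun _ h => h.2)
  have dx0 : O l (fun c => c.y1 - c.y2) 0 fun c => c.x1 - c.x2 := dx.mono (by omega)
  have k2 : O l (fun c => c.y1 - c.y2) 2 fun c => (c.y1 + c.y2) * (c.y1 - c.y2) :=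
    (((((O.pow 5).mul ((y1.add y2).mul (k := 0) hh (by omega)) (by omega)).sub ((p2.add q2).mul dx (by omega))).add
      ((O.pow 2).mul ((y1.sinh0.mul (k := 0) dx0.cosD (by omega)).add
        ((cos0 Cf.x2).mul (sinhD y1 y2 hh) (by omega))) (by omega))).sub
      (((O.pow 4).mul (((y1.cm 2).cosh0.mul (k := 0) (dbl dx0).cosD (by omega)).add
        ((cos0 fun c => 2 * c.x2).mul (coshD (y1.cm 2) (y2.cm 2) (dbl hh)) (by omega))) (by omega)).cm T)).congr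
      fun c => by
        have h1 := c.v1
        have h2 := c.v2
        simp only [V] at h1 h2
        linear_combination h1 - h2
  have ys : O l one 2 fun c => c.y1 + c.y2 := by
    obtain ⟨C, -, h⟩ := k2.bound
    refine (O.pow 2).le C ?_
    filter_upwards [h, k1] with c h1 h2
    rw [abs_mul, ← mul_assoc] at h1
    rw [abs_of_pos (pow_pos c.t0 2)]
    exact le_of_mul_le_mul_right h1 (abs_pos.2 h2.1.ne')
  have k3 : O l (fun c => c.y1 - c.y2) (0 + 1) fun c =>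
      B c.t c.x2 c.y2 - B c.t c.x1 c.y1 - 2 * (c.y1 - c.y2) :=
    (((((O.pow 5).mul hh (by omega)).cm (-2)).sub ((O.pow 2).mul ((y1.cosh0.mul (k := 0) dx0.cosD (by omega)).add
        ((cos0 Cf.x2).mul (coshD y1 y2 hh) (by omega))) (by omega))).add
      (((O.pow 4).mul (((y1.cm 2).sinh0.mul (k := 0) (dbl dx0).cosD (by omega)).add
        ((cos0 fun c => 2 * c.x2).mul (sinhD (y1.cm 2) (y2.cm 2) (dbl hh)) (by omega))) (by omega)).cm (2 * T))).congr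
      fun c => by simp only [B]; ring
  have k4 : ∀ᶠ c in l, c.y1 - c.y2 ≤ B c.t c.x2 c.y2 - B c.t c.x1 c.y1 := by
    filter_upwards [k3.small hl one_pos, k1] with c h1 h2
    rw [pow_zero, one_mul, one_mul, abs_of_pos h2.1] at h1
    linarith [(abs_le.1 h1).1]
  have hb : O l (fun c => B c.t c.x2 c.y2 - B c.t c.x1 c.y1) 0 fun c => c.y1 - c.y2 :=
    of_le 1 (by
      filter_upwards [k4, k1] with c h1 h2
      rw [one_mul, abs_of_pos h2.1]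
      exact h1.trans (le_abs_self _))
  have b1 : O l (fun c => B c.t c.x2 c.y2 - B c.t c.x1 c.y1) 0 fun c => B c.t c.x1 c.y1 :=
    of_le 1 (Eventually.of_forall fun c => by
      rw [one_mul, abs_of_nonpos c.b1]
      exact le_trans (by linarith [c.b2]) (le_abs_self _))
  have b2 : O l (fun c => B c.t c.x2 c.y2 - B c.t c.x1 c.y1) 0 fun c => B c.t c.x2 c.y2 :=
    of_le 1 (Eventually.of_forall fun c => by
      rw [one_mul, abs_of_nonneg c.b2]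
      exact le_trans (by linarith [c.b1]) (le_abs_self _))
  have bs : O l one 2 fun c => B c.t c.x1 c.y1 + B c.t c.x2 c.y2 :=
    (((B_main (X := Cf.x1) y1).add (B_main (X := Cf.x2) y2)).sub (ys.cm 2)).congr
      fun c => by ring
  have g0 : O l (fun c => B c.t c.x2 c.y2 - B c.t c.x1 c.y1) 0 fun c =>
      sinh (1 / 2 * (c.y1 - c.y2)) - sinh 0 :=
    sinhD (h0.cm _) (O.const 0) ((hb.cm (1 / 2)).congr fun c => by ring)
  have g1 : O l one 2 fun c => sinh c.y1 - sinh (1 / 2 * (c.y1 - c.y2)) :=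
    sinhD y1 (h0.cm _) ((ys.cm (1 / 2)).congr fun c => by ring)
  have g2 : O l one 2 fun c => sinh c.y2 - sinh (-1 * (1 / 2 * (c.y1 - c.y2))) :=
    sinhD y2 ((h0.cm _).cm _) ((ys.cm (1 / 2)).congr fun c => by ring)
  have g3 : O l one 2 fun c => sin c.x1 * B c.t c.x2 c.y2 + sin c.x2 * B c.t c.x1 c.y1 :=
    (((sin0 Cf.x1).mul bs (by omega)).sub (B1.mul (dx.trans h0).sinD (by omega))).congr fun c => by ring
  have g4 : O l (fun c => B c.t c.x2 c.y2 - B c.t c.x1 c.y1) 4 fun c =>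
      A c.t c.x1 c.y1 * B c.t c.x2 c.y2 - A c.t c.x2 c.y2 * B c.t c.x1 c.y1 +
        2 * c.t ^ 5 * (c.x1 * B c.t c.x2 c.y2 - c.x2 * B c.t c.x1 c.y1) :=
    ((((O.pow 4).mul (((((sin0 fun c => 2 * c.x1).mul (k := 0) (y1.cm 2).cosh0 (by omega)).mul (k := 0)
      b2 (by omega)).sub (((sin0 fun c => 2 * c.x2).mul (k := 0) (y2.cm 2).cosh0 (by omega)).mul b1 (by omega)))) (by omega)).cm (2 * T)).sub
      ((O.pow 2).mul ((((((sin0 Cf.x1).mul (k := 2) g1 (by omega)).mul (k := 2) b2 (by omega)).sub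
        (((sin0 Cf.x2).mul (k := 2) g2 (by omega)).mul b1 (by omega))).add (g3.mul g0 (by omega)))) (by omega))).congr fun c => by
      simp only [A, neg_mul, one_mul, sinh_neg, sinh_zero]; ring
  filter_upwards [big hl hr g4, hs, p1, q1, k4, k1, hr] with c h1 h2 h3 h4 h5 h6 h7
  have h8 := c.det h2
  have h9 : 0 < B c.t c.x2 c.y2 - B c.t c.x1 c.y1 := h6.1.trans_le h5
  have t5 : 0 < c.t ^ 5 := pow_pos c.t0 _
  rw [abs_of_pos h9] at h1
  nlinarith [(abs_le.1 h1).2, mul_pos (mul_pos t5 h7.2) h9,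
    mul_nonneg t5.le (mul_nonneg (sub_nonneg.2 h3) c.b2),
    mul_nonneg t5.le (mul_nonneg (sub_nonneg.2 h4) (neg_nonneg.2 c.b1))]

/-- the pair lemma -/
theorem pair_lemma : ∃ τ : ℝ, 0 < τ ∧ ∀ c : Cf, c.t < τ →
    (0 < c.x → c.l1 * A c.t c.x1 c.y1 + c.l2 * A c.t c.x2 c.y2 < 0) ∧
      (c.x = 0 → c.x1 = 0 ∧ c.x2 = 0 ∧ c.y2 < c.y1) := by
  have h1 : ∀ S : Set Cf, Tendsto Cf.t (comap Cf.t (𝓝 0) ⊓ 𝓟 S) (𝓝 0) := fun S =>
    tendsto_comap.mono_left inf_le_left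
  have h2 : ∀ S : Set Cf, ∀ᶠ c in comap Cf.t (𝓝 0) ⊓ 𝓟 S, c ∈ S := fun S =>
    mem_inf_of_right (mem_principal_self S)
  obtain ⟨c1, c2, c3, c4⟩ := central (h1 {c | c.t ^ 3 * c.x ^ 2 ≤ 1}) (h2 _)
  have e1 := eventually_inf_principal.1 (((c1.small (h1 _) one_pos).and
    ((c4.mono (k := 0 + 1) (by omega)).small (h1 _) one_pos)).and
    (((c2.mono (k := 0 + 1) (by omega)).small (h1 _) one_pos).and
      ((c3.mono (k := 0 + 1) (by omega)).small (h1 _) one_pos)))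
  have e2 := eventually_inf_principal.1 (far (h1 {c | (1 ≤ c.t ^ 3 * c.x ^ 2 ∧ 0 < c.x) ∧
    0 ≤ c.l1 * A c.t c.x1 c.y1 + c.l2 * A c.t c.x2 c.y2}) ((h2 _).mono fun _ h => h.1)
    ((h2 _).mono fun _ h => h.2))
  obtain ⟨τ, hτ, h⟩ := Metric.eventually_nhds_iff.1 (eventually_comap.1 (e1.and e2))
  refine ⟨τ, hτ, fun c hc => ?_⟩
  obtain ⟨h3, h4⟩ := h (y := c.t) (by rwa [Real.dist_eq, sub_zero, abs_of_pos c.t0]) c rfl
  refine ⟨fun hx => ?_, fun hx => ?_⟩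
  · by_contra hn
    rcases le_total (c.t ^ 3 * c.x ^ 2) 1 with hr | hr
    · have h5 := (h3 hr).1.1
      rw [abs_of_pos hx] at h5
      nlinarith [(abs_le.1 h5).2, c.det (not_lt.1 hn), mul_pos (pow_pos c.t0 5) hx]
    · exact h4 ⟨⟨hr, hx⟩, not_lt.1 hn⟩
  · obtain ⟨⟨-, h5⟩, h6, h7⟩ := h3 (show c.t ^ 3 * c.x ^ 2 ≤ 1 by simp [hx])
    simp only [hx, sub_zero, abs_zero, mul_zero, abs_nonpos_iff, pow_zero, abs_one,
      mul_one] at h5 h6 h7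
    exact ⟨h6, h7, by linarith [(abs_le.1 h5).1]⟩

end Pool.Agent.Lib.AB65
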